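import Mathlib
import Pool.Prelude.Def_F_c2511cc8

set_option autoImplicit false

/-!
Set based colourability, and the passage from odd cycles to cycles and from cycles to paths.
-/

namespace Run7.h925

open SimpleGraph

variable {V : Type*}

/-- `Col G S n`: the subgraph of `G` induced on the vertex set `S` has a proper colouring with
the colours `0, ..., n-1`. -/
def Col (G : SimpleGraph V) (S : Set V) (n : ℕ) : Prop :=
  ∃ f : V → ℕ, (∀ x ∈ S, f x < n) ∧ ∀ x ∈ S, ∀ y ∈ S, G.Adj x y → f x ≠ f y

variable {G : SimpleGraph V}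

theorem col_iff {S : Set V} {n : ℕ} : Col G S n ↔ (G.induce S).Colorable n := by
  classical
  constructor
  · rintro ⟨f, hf, hf'⟩
    rw [colorable_iff_exists_bdd_nat_coloring]
    refine ⟨Coloring.mk (fun x => f x.1) ?_, fun v => hf v.1 v.2⟩
    intro v w hvw
    exact hf' v.1 v.2 w.1 w.2 hvw
  · intro h
    rw [colorable_iff_exists_bdd_nat_coloring] at h
    obtain ⟨C, hC⟩ := h
    refine ⟨fun x => if hx : x ∈ S then C ⟨x, hx⟩ else 0, ?_, ?_⟩
    · intro x hx
      simpa [hx] using hC ⟨x, hx⟩
    · intro x hx y hy hxy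
      have : C ⟨x, hx⟩ ≠ C ⟨y, hy⟩ := C.valid hxy
      simpa [hx, hy] using this

theorem Col.mono {S T : Set V} {m n : ℕ} (h : Col G S m) (hT : T ⊆ S) (hmn : m ≤ n) :
    Col G T n := by
  obtain ⟨f, hf, hf'⟩ := h
  exact ⟨f, fun x hx => (hf x (hT hx)).trans_le hmn, fun x hx y hy => hf' x (hT hx) y (hT hy)⟩

theorem Col.union {S T : Set V} {m n : ℕ} (hS : Col G S m) (hT : Col G T n) :
    Col G (S ∪ T) (m + n) := by
  classical
  obtain ⟨f, hf, hf'⟩ := hS
  obtain ⟨g, hg, hg'⟩ := hT
  refine ⟨fun x => if x ∈ S then f x else m + g x, ?_, ?_⟩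
  · rintro x (hx | hx)
    · have := hf x hx
      simp only [hx, if_true]; omega
    · have := hg x hx
      by_cases h : x ∈ S
      · have := hf x h
        simp only [h, if_true]; omega
      · simp only [h, if_false]; omega
  · intro x hx y hy hxy
    by_cases h1 : x ∈ S <;> by_cases h2 : y ∈ S
    · simpa [h1, h2] using hf' x h1 y h2 hxy
    · have := hf x h1
      simp only [h1, h2, if_true, if_false]; omega
    · have := hf y h2
      simp only [h1, h2, if_true, if_false]; omega
    · have hx' : x ∈ T := hx.resolve_left h1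
      have hy' : y ∈ T := hy.resolve_left h2
      have := hg' x hx' y hy' hxy
      simp only [h1, h2, if_false]; omega

theorem col_of_not_adj {S T : Set V} {n : ℕ} (hS : Col G S n) (hT : Col G T n)
    (h : ∀ a ∈ S, ∀ b ∈ T, ¬ G.Adj a b) : Col G (S ∪ T) n := by
  classical
  obtain ⟨f, hf, hf'⟩ := hS
  obtain ⟨g, hg, hg'⟩ := hT
  refine ⟨fun x => if x ∈ S then f x else g x, ?_, ?_⟩
  · rintro x (hx | hx)
    · simpa [hx] using hf x hx
    · by_cases h' : x ∈ S
      · simpa [h'] using hf x h'
      · simpa [h'] using hg x hx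
  · intro x hx y hy hxy
    by_cases h1 : x ∈ S <;> by_cases h2 : y ∈ S
    · simpa [h1, h2] using hf' x h1 y h2 hxy
    · exact absurd hxy (h x h1 y (hy.resolve_left h2))
    · exact absurd hxy.symm (h y h2 x (hx.resolve_left h1))
    · have hx' : x ∈ T := hx.resolve_left h1
      have hy' : y ∈ T := hy.resolve_left h2
      simpa [h1, h2] using hg' x hx' y hy' hxy

theorem col_of_empty {n : ℕ} : Col G (∅ : Set V) n := ⟨fun _ => 0, by simp, by simp⟩

theorem col_singleton {x : V} {n : ℕ} (hn : 1 ≤ n) : Col G ({x} : Set V) n := by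
  refine ⟨fun _ => 0, fun _ _ => hn, ?_⟩
  intro a ha b hb hab
  simp only [Set.mem_singleton_iff] at ha hb
  subst ha; subst hb
  exact absurd hab (G.irrefl)

/-- If the odd cycles of `G` all span `k'`-colourable subgraphs. Cycles are written as lists
`x, m, y` whose consecutive elements are adjacent and with `y` adjacent to `x`. -/
def OddCyc (G : SimpleGraph V) (k' : ℕ) : Prop :=
  ∀ (x y : V) (m : List V), (x :: (m ++ [y])).Nodup → (x :: (m ++ [y])).IsChain G.Adj →
    G.Adj y x → Odd m.length → Col G {z | z ∈ x :: (m ++ [y])} k'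

/-- All cycles of `G` span `k'`-colourable subgraphs. -/
def AllCyc (G : SimpleGraph V) (k' : ℕ) : Prop :=
  ∀ (x y : V) (m : List V), (x :: (m ++ [y])).Nodup → (x :: (m ++ [y])).IsChain G.Adj →
    G.Adj y x → m ≠ [] → Col G {z | z ∈ x :: (m ++ [y])} k'

/-- All paths of `G` span `c`-colourable subgraphs. -/
def AllPath (G : SimpleGraph V) (c : ℕ) : Prop :=
  ∀ l : List V, l.Nodup → l.IsChain G.Adj → Col G {z | z ∈ l} c

theorem oddCyc_of_not (k : ℕ) (hk : 1 ≤ k) (h : ¬ Nb10b39f9.HasHighChromaticOddCycle G k) :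
    OddCyc G (k - 1) := by
  intro x y m hnd hch hyx hodd
  by_contra hcol
  apply h
  set l : List V := x :: (m ++ [y]) with hl
  have hne : l ≠ [] := by simp [hl]
  have hhead : l.head hne = x := by simp [hl]
  have hlast : l.getLast hne = y := by simp [hl]
  set p : G.Walk (l.head hne) (l.getLast hne) := Walk.ofSupport l hne hch with hp
  have hsupp : p.support = l := Walk.support_ofSupport hne hch
  have hlen : p.length = l.length - 1 := Walk.length_ofSupport hne hch
  have hpath : p.IsPath := by
    rw [Walk.isPath_def, hsupp]; exact hnd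
  have hadj : G.Adj (l.getLast hne) (l.head hne) := by rw [hhead, hlast]; exact hyx
  have hmpos : 1 ≤ m.length := hodd.pos
  have hllen : l.length = m.length + 2 := by simp [hl]
  refine ⟨l.getLast hne, Walk.cons hadj p, ?_, ?_, ?_⟩
  · rw [Walk.cons_isCycle_iff]
    refine ⟨hpath, ?_⟩
    intro hmem
    rw [Sym2.eq_swap] at hmem
    have := hpath.length_eq_one_of_mem_edges hmem
    omega
  · rw [Walk.length_cons, hlen, hllen]
    have : m.length + 2 - 1 + 1 = m.length + 2 := by omega
    rw [this]
    exact hodd.add_even (by decide)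
  · by_contra hlt
    apply hcol
    rw [not_le] at hlt
    have hset : {z | z ∈ (Walk.cons hadj p).support} = {z | z ∈ l} := by
      ext z
      simp only [Walk.support_cons, List.mem_cons, Set.mem_ofPred_eq, hsupp]
      constructor
      · rintro (h | h)
        · rw [h]; exact List.getLast_mem hne
        · exact h
      · intro h; exact Or.inr h
    rw [hset] at hlt
    have hle : (G.induce {z | z ∈ l}).chromaticNumber ≤ ((k - 1 : ℕ) : ℕ∞) := by
      have : (G.induce {z | z ∈ l}).chromaticNumber + 1 ≤ (k : ℕ∞) := Order.add_one_le_of_lt hlt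
      have hk' : ((k - 1 : ℕ) : ℕ∞) + 1 = (k : ℕ∞) := by
        have : (k - 1) + 1 = k := by omega
        exact_mod_cast this
      rw [← hk'] at this
      exact (ENat.add_le_add_iff_right ENat.one_ne_top).mp this
    rw [col_iff]
    exact chromaticNumber_le_iff_colorable.mp hle

end Run7.h925
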