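import Pool.Agent.Run7.h925.CycPath

set_option autoImplicit false

/-!
Components, and the bifurcation lemma for graphs all of whose paths span `c`-colourable graphs.
-/

namespace Run7.h925

open SimpleGraph

variable {V : Type*} {G : SimpleGraph V}

/-- `K` is nonempty and connected, expressed by cuts. -/
def CC (G : SimpleGraph V) (K : Set V) : Prop :=
  K.Nonempty ∧ ∀ A ⊆ K, A.Nonempty → (K \ A).Nonempty → ∃ a ∈ A, ∃ b ∈ K \ A, G.Adj a b

/-- `K` is the vertex set of a connected component of `G[U]`. -/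
def Comp (G : SimpleGraph V) (U K : Set V) : Prop :=
  K ⊆ U ∧ CC G K ∧ ∀ a ∈ K, ∀ b ∈ U, G.Adj a b → b ∈ K

theorem CC.connected {K : Set V} (h : CC G K) : (G.induce K).Connected := by
  obtain ⟨x, hx⟩ := h.1
  rw [connected_iff_exists_forall_reachable]
  refine ⟨⟨x, hx⟩, ?_⟩
  by_contra hcon
  push Not at hcon
  obtain ⟨⟨z, hz⟩, hzr⟩ := hcon
  set A : Set V := {y | ∃ hy : y ∈ K, (G.induce K).Reachable ⟨x, hx⟩ ⟨y, hy⟩} with hA
  have hAK : A ⊆ K := fun y hy => hy.1
  have hxA : x ∈ A := ⟨hx, Reachable.refl _⟩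
  have hzA : z ∉ A := by
    rintro ⟨_, h'⟩
    exact hzr h'
  obtain ⟨a, ha, b, hb, hab⟩ := h.2 A hAK ⟨x, hxA⟩ ⟨z, hz, hzA⟩
  obtain ⟨haK, har⟩ := ha
  apply hb.2
  refine ⟨hb.1, har.trans ?_⟩
  have : (G.induce K).Adj ⟨a, haK⟩ ⟨b, hb.1⟩ := hab
  exact this.reachable

theorem exists_critical [Finite V] {S : Set V} {n : ℕ} (h : ¬ Col G S n) :
    ∃ K ⊆ S, CC G K ∧ ¬ Col G K n := by
  obtain ⟨K, ⟨hKS, hK⟩, hmin⟩ := Set.exists_min_image {K : Set V | K ⊆ S ∧ ¬ Col G K n}
    (fun K => K.ncard) (Set.toFinite _) ⟨S, subset_rfl, h⟩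
  refine ⟨K, hKS, ⟨?_, ?_⟩, hK⟩
  · by_contra hne
    rw [Set.not_nonempty_iff_eq_empty] at hne
    exact hK (hne ▸ col_of_empty)
  · intro A hAK hA hKA
    by_contra hcon
    push Not at hcon
    have h1 : Col G A n := by
      by_contra hA'
      have := hmin A ⟨hAK.trans hKS, hA'⟩
      have hlt : A.ncard < K.ncard := by
        apply Set.ncard_lt_ncard _ (Set.toFinite _)
        exact ⟨hAK, fun hsub => by obtain ⟨z, hz1, hz2⟩ := hKA; exact hz2 (hsub hz1)⟩
      omega
    have h2 : Col G (K \ A) n := by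
      by_contra hA'
      have := hmin (K \ A) ⟨Set.sdiff_subset.trans hKS, hA'⟩
      have hlt : (K \ A).ncard < K.ncard := by
        apply Set.ncard_lt_ncard _ (Set.toFinite _)
        refine ⟨Set.sdiff_subset, fun hsub => ?_⟩
        obtain ⟨z, hz⟩ := hA
        exact (hsub (hAK hz)).2 hz
      omega
    apply hK
    have := col_of_not_adj h1 h2 hcon
    rwa [Set.union_sdiff_cancel hAK] at this

theorem cc_singleton (x : V) : CC G {x} := by
  refine ⟨⟨x, rfl⟩, ?_⟩
  intro A hA hne hne2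
  obtain ⟨a, ha⟩ := hne
  obtain ⟨b, hb, hb'⟩ := hne2
  have h1 : a = x := hA ha
  have h2 : b = x := hb
  subst h2
  rw [h1] at ha
  exact absurd ha hb'

theorem CC.insert {K : Set V} (h : CC G K) {a b : V} (ha : a ∈ K) (hab : G.Adj a b) :
    CC G (insert b K) := by
  classical
  refine ⟨⟨b, Set.mem_insert _ _⟩, ?_⟩
  intro A hA hne hne2
  by_cases h1 : (A ∩ K).Nonempty ∧ (K \ A).Nonempty
  · obtain ⟨u, hu, v, hv, huv⟩ := h.2 (A ∩ K) Set.inter_subset_right h1.1 (by
      obtain ⟨z, hz1, hz2⟩ := h1.2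
      exact ⟨z, hz1, fun hz => hz2 hz.1⟩)
    exact ⟨u, hu.1, v, ⟨Set.mem_insert_of_mem _ hv.1, fun hvA => hv.2 ⟨hvA, hv.1⟩⟩, huv⟩
  · by_cases h2 : (A ∩ K).Nonempty
    · -- then `K ⊆ A`, so `b ∉ A`
      have h3 : K ⊆ A := by
        intro z hz
        by_contra hzA
        exact h1 ⟨h2, ⟨z, hz, hzA⟩⟩
      obtain ⟨z, hz1, hz2⟩ := hne2
      rcases hz1 with hz1 | hz1
      · subst hz1
        exact ⟨a, h3 ha, z, ⟨Set.mem_insert _ _, hz2⟩, hab⟩
      · exact absurd (h3 hz1) hz2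
    · -- `A = {b}`
      obtain ⟨z, hz⟩ := hne
      have hzb : z = b := by
        rcases hA hz with h | h
        · exact h
        · exact absurd ⟨z, hz, h⟩ h2
      subst hzb
      refine ⟨z, hz, a, ⟨Set.mem_insert_of_mem _ ha, fun haA => h2 ⟨a, haA, ha⟩⟩, hab.symm⟩

theorem exists_comp [Finite V] {U K₀ : Set V} (h : CC G K₀) (hU : K₀ ⊆ U) :
    ∃ K, K₀ ⊆ K ∧ Comp G U K := by
  obtain ⟨K, ⟨h1, h2, h3⟩, hmax⟩ := Set.exists_max_image
    {K : Set V | K₀ ⊆ K ∧ K ⊆ U ∧ CC G K} (fun K => K.ncard) (Set.toFinite _)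
    ⟨K₀, subset_rfl, hU, h⟩
  refine ⟨K, h1, h2, h3, ?_⟩
  intro a ha b hb hab
  by_contra hbK
  have := hmax (insert b K) ⟨h1.trans (Set.subset_insert _ _),
    Set.insert_subset hb h2, h3.insert ha hab⟩
  rw [Set.ncard_insert_of_notMem hbK (Set.toFinite _)] at this
  omega

theorem Comp.sub_of_inter {U C K : Set V} (hC : Comp G U C) (hK : CC G K) (hKU : K ⊆ U)
    (hne : (K ∩ C).Nonempty) : K ⊆ C := by
  intro z hz
  by_contra hzC
  obtain ⟨a, ha, b, hb, hab⟩ := hK.2 (K ∩ C) Set.inter_subset_left hne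
    ⟨z, hz, fun h => hzC h.2⟩
  have : b ∈ C := hC.2.2 a ha.2 b (hKU hb.1) hab
  exact hb.2 ⟨hb.1, this⟩

theorem Comp.eq_of_inter {U C K : Set V} (hC : Comp G U C) (hK : Comp G U K)
    (hne : (K ∩ C).Nonempty) : K = C :=
  Set.Subset.antisymm (hC.sub_of_inter hK.2.1 hK.1 hne)
    (hK.sub_of_inter hC.2.1 hC.1 (by rwa [Set.inter_comm]))

/-- State of the search: `P` is (the reverse of) a path, `K` a component of the graph without
`P` which is adjacent to the head of `P`. -/
def State (G : SimpleGraph V) (P : List V) (K : Set V) : Prop :=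
  P.Nodup ∧ P.IsChain G.Adj ∧ Comp G {z | z ∉ P} K ∧ ∀ w, P.head? = some w → ∃ y ∈ K, G.Adj w y

/-- One step of the search. -/
theorem State.step {P : List V} {K : Set V} (h : State G P K) :
    ∃ x ∈ K, (x :: P).Nodup ∧ (x :: P).IsChain G.Adj ∧
      ∀ K', Comp G {z | z ∉ x :: P} K' → (K' ∩ K).Nonempty → K' ⊆ K ∧ State G (x :: P) K' := by
  obtain ⟨hnd, hch, hK, hadj⟩ := h
  obtain ⟨x, hx, hxP⟩ : ∃ x ∈ K, ∀ w, P.head? = some w → G.Adj w x := by
    cases P with
    | nil =>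
      obtain ⟨x, hx⟩ := hK.2.1.1
      exact ⟨x, hx, by intro w hw; simp at hw⟩
    | cons w P =>
      obtain ⟨y, hy, hwy⟩ := hadj w rfl
      refine ⟨y, hy, ?_⟩
      intro w' hw'
      simp at hw'
      rw [← hw']; exact hwy
  have hxnP : x ∉ P := hK.1 hx
  have hnd' : (x :: P).Nodup := List.nodup_cons.mpr ⟨hxnP, hnd⟩
  have hch' : (x :: P).IsChain G.Adj := by
    cases P with
    | nil => exact List.IsChain.singleton x
    | cons w P => exact List.IsChain.cons_cons (hxP w rfl).symm hch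
  refine ⟨x, hx, hnd', hch', ?_⟩
  intro K' hK' hne
  have hK'U : K' ⊆ {z | z ∉ P} := fun z hz hzP => hK'.1 hz (List.mem_cons_of_mem _ hzP)
  have hsub : K' ⊆ K := hK.sub_of_inter hK'.2.1 hK'U hne
  refine ⟨hsub, hnd', hch', hK', ?_⟩
  intro w hw
  simp at hw
  subst hw
  have hxK' : x ∉ K' := fun hx' => hK'.1 hx' (List.mem_cons_self)
  obtain ⟨a, ha, b, hb, hab⟩ := hK.2.1.2 K' hsub hK'.2.1.1 ⟨x, hx, hxK'⟩
  by_cases hbx : b = x
  · subst hbx; exact ⟨a, ha, hab.symm⟩
  · exfalso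
    apply hb.2
    refine hK'.2.2 a ha b ?_ hab
    intro hbm
    rcases List.mem_cons.mp hbm with h | h
    · exact hbx h
    · exact hK.1 hb.1 h

/-- The bifurcation lemma. -/
theorem bifurcation [Finite V] {c n : ℕ} (hc : AllPath G c) {P : List V} {K : Set V}
    (hst : State G P K) (hK : ¬ Col G K (c + n)) :
    ∃ (Q : List V) (K₁ K₂ : Set V), (∀ z ∈ Q, z ∈ K) ∧ State G (Q ++ P) K₁ ∧
      State G (Q ++ P) K₂ ∧ K₁ ⊆ K ∧ K₂ ⊆ K ∧ K₁ ≠ K₂ ∧ ¬ Col G K₁ n ∧ ¬ Col G K₂ n := by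
  -- general claim, by strong induction on the size of the current component
  suffices H : ∀ (N : ℕ) (Q₁ : List V) (L : Set V), L.ncard ≤ N → (∀ z ∈ Q₁, z ∈ K) →
      State G (Q₁ ++ P) L → L ⊆ K →
      (∀ T : Set V, T ⊆ K \ {z | z ∈ Q₁} → CC G T → ¬ Col G T n → T ⊆ L) →
      ∃ (Q : List V) (K₁ K₂ : Set V), (∀ z ∈ Q, z ∈ K) ∧ State G (Q ++ P) K₁ ∧
      State G (Q ++ P) K₂ ∧ K₁ ⊆ K ∧ K₂ ⊆ K ∧ K₁ ≠ K₂ ∧ ¬ Col G K₁ n ∧ ¬ Col G K₂ n by
    exact H K.ncard [] K le_rfl (by simp) (by simpa using hst) subset_rfl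
      (by intro T hT _ _; simpa using hT)
  intro N
  induction N with
  | zero =>
    intro Q₁ L hN _ hL _ _
    exfalso
    obtain ⟨x, hx⟩ := hL.2.2.1.2.1.1
    have : L.ncard = 0 := by omega
    rw [Set.ncard_eq_zero (Set.toFinite _)] at this
    rw [this] at hx
    exact hx
  | succ N ih =>
    intro Q₁ L hN hQ₁ hL hLK hinv
    obtain ⟨x, hxL, hnd, hch, hstep⟩ := hL.step
    -- the set `K` minus the new path is not `n`-colourable
    have hQcol : Col G {z | z ∈ x :: Q₁} c := by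
      apply hc
      · have : List.Sublist (x :: Q₁) (x :: (Q₁ ++ P)) :=
          List.Sublist.cons_cons x (List.sublist_append_left _ _)
        exact hnd.sublist this
      · exact chain_mid (a := []) (b := x :: Q₁) (c := P) hch (by simp)
    have hncol : ¬ Col G (K \ {z | z ∈ x :: Q₁}) n := by
      intro hcol
      apply hK
      refine (hQcol.union hcol).mono ?_ le_rfl
      intro z hz
      by_cases h : z ∈ x :: Q₁
      · exact Or.inl h
      · exact Or.inr ⟨hz, h⟩
    obtain ⟨T, hTsub, hTcc, hTn⟩ := exists_critical hncol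
    have hTL : T ⊆ L := by
      apply hinv T _ hTcc hTn
      intro z hz
      exact ⟨(hTsub hz).1, fun h => (hTsub hz).2 (List.mem_cons_of_mem _ h)⟩
    have hTU : T ⊆ {z | z ∉ x :: (Q₁ ++ P)} := by
      intro z hz hzm
      rcases List.mem_cons.mp hzm with h | h
      · exact (hTsub hz).2 (by simp [h])
      · exact hL.2.2.1.1 (hTL hz) h
    obtain ⟨K₁, hTK₁, hK₁⟩ := exists_comp hTcc hTU
    have hne1 : (K₁ ∩ L).Nonempty := by
      obtain ⟨z, hz⟩ := hTcc.1
      exact ⟨z, hTK₁ hz, hTL hz⟩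
    obtain ⟨hK₁L, hst₁⟩ := hstep K₁ hK₁ hne1
    have hK₁n : ¬ Col G K₁ n := fun h => hTn (h.mono hTK₁ le_rfl)
    by_cases hex : ∃ K₂, Comp G {z | z ∉ x :: (Q₁ ++ P)} K₂ ∧ (K₂ ∩ L).Nonempty ∧
        ¬ Col G K₂ n ∧ K₁ ≠ K₂
    · obtain ⟨K₂, h1, h2, h3, h4⟩ := hex
      obtain ⟨hK₂L, hst₂⟩ := hstep K₂ h1 h2
      refine ⟨x :: Q₁, K₁, K₂, ?_, hst₁, hst₂, hK₁L.trans hLK, hK₂L.trans hLK, h4, hK₁n, h3⟩
      intro z hz
      rcases List.mem_cons.mp hz with h | h
      · rw [h]; exact hLK hxL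
      · exact hQ₁ z h
    · push Not at hex
      refine ih (x :: Q₁) K₁ ?_ ?_ hst₁ (hK₁L.trans hLK) ?_
      · have hlt : K₁.ncard < L.ncard := by
          apply Set.ncard_lt_ncard _ (Set.toFinite _)
          refine ⟨hK₁L, fun hsub => ?_⟩
          exact hK₁.1 (hsub hxL) (List.mem_cons_self)
        omega
      · intro z hz
        rcases List.mem_cons.mp hz with h | h
        · rw [h]; exact hLK hxL
        · exact hQ₁ z h
      · intro S hS hScc hSn
        have hSL : S ⊆ L := by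
          apply hinv S _ hScc hSn
          intro z hz
          exact ⟨(hS hz).1, fun h => (hS hz).2 (List.mem_cons_of_mem _ h)⟩
        have hSU : S ⊆ {z | z ∉ x :: (Q₁ ++ P)} := by
          intro z hz hzm
          rcases List.mem_cons.mp hzm with h | h
          · exact (hS hz).2 (by simp [h])
          · exact hL.2.2.1.1 (hSL hz) h
        obtain ⟨K₂, hSK₂, hK₂⟩ := exists_comp hScc hSU
        have hne2 : (K₂ ∩ L).Nonempty := by
          obtain ⟨z, hz⟩ := hScc.1
          exact ⟨z, hSK₂ hz, hSL hz⟩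
        have hK₂n : ¬ Col G K₂ n := fun h => hSn (h.mono hSK₂ le_rfl)
        have := hex K₂ hK₂ hne2 hK₂n
        rw [this]; exact hSK₂

/-- Vertex sets `A`, `B` are disjoint and there is no edge between them. -/
def Anti (G : SimpleGraph V) (A B : Set V) : Prop :=
  Disjoint A B ∧ ∀ a ∈ A, ∀ b ∈ B, ¬ G.Adj a b

theorem Anti.symm {A B : Set V} (h : Anti G A B) : Anti G B A :=
  ⟨h.1.symm, fun a ha b hb hab => h.2 b hb a ha hab.symm⟩

theorem Anti.mono {A B A' B' : Set V} (h : Anti G A B) (hA : A' ⊆ A) (hB : B' ⊆ B) :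
    Anti G A' B' :=
  ⟨h.1.mono hA hB, fun a ha b hb => h.2 a (hA ha) b (hB hb)⟩

theorem Comp.anti {U C K : Set V} (hC : Comp G U C) (hK : Comp G U K) (hne : C ≠ K) :
    Anti G C K := by
  have hd : Disjoint C K := by
    rw [Set.disjoint_iff_inter_eq_empty]
    by_contra h
    exact hne (hK.eq_of_inter hC (Set.nonempty_iff_ne_empty.mpr h))
  refine ⟨hd, fun a ha b hb hab => ?_⟩
  have : b ∈ C := hC.2.2 a ha b (hK.1 hb) hab
  exact Set.disjoint_left.mp hd this hb

/-- Many pairwise anticomplete sets. -/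
theorem many_anti [Finite V] {c b : ℕ} (hc : AllPath G c) :
    ∀ (m : ℕ) (P : List V) (K : Set V), State G P K → ¬ Col G K (c * m + b) →
      ∃ A : Fin (2 ^ m) → Set V, (∀ i, A i ⊆ K ∧ CC G (A i) ∧ ¬ Col G (A i) b) ∧
        ∀ i j, i ≠ j → Anti G (A i) (A j) := by
  intro m
  induction m with
  | zero =>
    intro P K hst hK
    refine ⟨fun _ => K, fun _ => ⟨subset_rfl, hst.2.2.1.2.1, by simpa using hK⟩, ?_⟩
    intro i j hij
    have e : 2 ^ 0 = 1 := rfl
    exfalso
    apply hij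
    apply Fin.ext
    have := i.2
    have := j.2
    omega
  | succ m ih =>
    intro P K hst hK
    have hK' : ¬ Col G K (c + (c * m + b)) := by
      have e : c + (c * m + b) = c * (m + 1) + b := by ring
      rw [e]; exact hK
    obtain ⟨Q, K₁, K₂, _, hst₁, hst₂, h1, h2, hne, hn1, hn2⟩ := bifurcation hc hst hK'
    obtain ⟨A₁, hA₁, hA₁'⟩ := ih _ _ hst₁ hn1
    obtain ⟨A₂, hA₂, hA₂'⟩ := ih _ _ hst₂ hn2
    have hanti : Anti G K₁ K₂ := hst₁.2.2.1.anti hst₂.2.2.1 hne
    have e : 2 ^ (m + 1) = 2 ^ m + 2 ^ m := by ring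
    refine ⟨fun i => Fin.addCases A₁ A₂ (Fin.cast e i), ?_, ?_⟩
    · intro i
      refine Fin.addCases (motive := fun i' => (Fin.addCases A₁ A₂ i' : Set V) ⊆ K ∧
        CC G (Fin.addCases A₁ A₂ i' : Set V) ∧ ¬ Col G (Fin.addCases A₁ A₂ i' : Set V) b)
        ?_ ?_ (Fin.cast e i)
      · intro i'
        simp only [Fin.addCases_left]
        exact ⟨(hA₁ i').1.trans h1, (hA₁ i').2⟩
      · intro i'
        simp only [Fin.addCases_right]
        exact ⟨(hA₂ i').1.trans h2, (hA₂ i').2⟩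
    · intro i j hij
      have hij' : Fin.cast e i ≠ Fin.cast e j := by
        intro h; apply hij; exact Fin.cast_injective e h
      suffices H : ∀ i' j' : Fin (2 ^ m + 2 ^ m), i' ≠ j' →
          Anti G (Fin.addCases A₁ A₂ i' : Set V) (Fin.addCases A₁ A₂ j' : Set V) from
        H _ _ hij'
      clear hij' hij i j
      intro i' j' hij'
      induction i' using Fin.addCases with
      | left i' =>
        induction j' using Fin.addCases with
        | left j' =>
          simp only [Fin.addCases_left]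
          apply hA₁'
          intro h; exact hij' (by rw [h])
        | right j' =>
          simp only [Fin.addCases_left, Fin.addCases_right]
          exact hanti.mono (hA₁ i').1 (hA₂ j').1
      | right i' =>
        induction j' using Fin.addCases with
        | left j' =>
          simp only [Fin.addCases_left, Fin.addCases_right]
          exact (hanti.mono (hA₁ j').1 (hA₂ i').1).symm
        | right j' =>
          simp only [Fin.addCases_right]
          apply hA₂'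
          intro h; exact hij' (by rw [h])

/-- Many components hanging on one path. -/
theorem many_comp [Finite V] {c b : ℕ} (hc : AllPath G c) :
    ∀ (m : ℕ) (P : List V) (K : Set V), State G P K → ¬ Col G K (c * m + b) →
      ∃ (Q : List V) (A : Fin m → Set V), (∀ z ∈ Q, z ∈ K) ∧ (Q ++ P).Nodup ∧
        (Q ++ P).IsChain G.Adj ∧ (1 ≤ m → Q ≠ []) ∧
        (∀ i, A i ⊆ K ∧ Comp G {z | z ∉ Q ++ P} (A i) ∧ ¬ Col G (A i) b ∧
          ∃ a ∈ A i, ∃ w ∈ Q ++ P, G.Adj a w) ∧
        ∀ i j, i ≠ j → A i ≠ A j := by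
  intro m
  induction m with
  | zero =>
    intro P K hst hK
    exact ⟨[], fun i => i.elim0, by simp, by simpa using hst.1, by simpa using hst.2.1,
      fun h => by omega, fun i => i.elim0, fun i => i.elim0⟩
  | succ m ih =>
    intro P K hst hK
    have hK' : ¬ Col G K (c + (c * m + b)) := by
      have e : c + (c * m + b) = c * (m + 1) + b := by ring
      rw [e]; exact hK
    obtain ⟨Q₁, K₁, K₂, hQ₁, hst₁, hst₂, h1, h2, hne, hn1, hn2⟩ := bifurcation hc hst hK'
    obtain ⟨Q₂, A, hQ₂, hnd, hch, _, hA, hA'⟩ := ih _ _ hst₁ hn1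
    have hanti : Anti G K₁ K₂ := hst₁.2.2.1.anti hst₂.2.2.1 hne
    have hQ₁ne : Q₁ ≠ [] := by
      intro hnil
      subst hnil
      apply hne
      have e1 : K₁ = K := hst.2.2.1.eq_of_inter hst₁.2.2.1 (by
        obtain ⟨z, hz⟩ := hst₁.2.2.1.2.1.1
        exact ⟨z, hz, h1 hz⟩)
      have e2 : K₂ = K := hst.2.2.1.eq_of_inter hst₂.2.2.1 (by
        obtain ⟨z, hz⟩ := hst₂.2.2.1.2.1.1
        exact ⟨z, hz, h2 hz⟩)
      rw [e1, e2]
    have e : (Q₂ ++ Q₁) ++ P = Q₂ ++ (Q₁ ++ P) := List.append_assoc _ _ _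
    have hK₂comp : Comp G {z | z ∉ Q₂ ++ (Q₁ ++ P)} K₂ := by
      refine ⟨?_, hst₂.2.2.1.2.1, ?_⟩
      · intro z hz hzm
        rcases List.mem_append.mp hzm with h | h
        · exact Set.disjoint_left.mp hanti.1 (hQ₂ z h) hz
        · exact hst₂.2.2.1.1 hz h
      · intro a ha z hz haz
        apply hst₂.2.2.1.2.2 a ha z _ haz
        intro hzm
        exact hz (List.mem_append.mpr (Or.inr hzm))
    refine ⟨Q₂ ++ Q₁, Fin.cons K₂ A, ?_, by rw [e]; exact hnd, by rw [e]; exact hch, ?_, ?_, ?_⟩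
    · intro z hz
      rcases List.mem_append.mp hz with h | h
      · exact h1 (hQ₂ z h)
      · exact hQ₁ z h
    · intro _ h
      exact hQ₁ne (List.append_eq_nil_iff.mp h).2
    · intro i
      rw [e]
      refine Fin.cases ?_ ?_ i
      · simp only [Fin.cons_zero]
        refine ⟨h2, hK₂comp, fun h => hn2 (h.mono subset_rfl (by omega)), ?_⟩
        cases hq : Q₁ with
        | nil => exact absurd hq hQ₁ne
        | cons w q =>
          obtain ⟨y, hy, hwy⟩ := hst₂.2.2.2 w (by rw [hq]; rfl)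
          exact ⟨y, hy, w, by simp, hwy.symm⟩
      · intro i'
        simp only [Fin.cons_succ]
        exact ⟨(hA i').1.trans h1, (hA i').2⟩
    · have hdis : ∀ i', A i' ≠ K₂ := by
        intro i' h
        obtain ⟨z, hz⟩ := (hA i').2.1.2.1.1
        exact Set.disjoint_left.mp hanti.1 ((hA i').1 hz) (h ▸ hz)
      intro i j
      refine Fin.cases ?_ ?_ i
      · refine Fin.cases ?_ ?_ j
        · intro h; exact absurd rfl h
        · intro j' _
          simp only [Fin.cons_zero, Fin.cons_succ]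
          exact (hdis j').symm
      · intro i'
        refine Fin.cases ?_ ?_ j
        · intro _
          simp only [Fin.cons_zero, Fin.cons_succ]
          exact hdis i'
        · intro j' hij
          simp only [Fin.cons_succ]
          apply hA'
          intro h; exact hij (by rw [h])

end Run7.h925
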