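import Pool.Agent.Run7.h925.Basic

set_option autoImplicit false

/-!
From odd cycles to all cycles (`2k'` colours) and from cycles to paths (`2k'` colours again).
-/

namespace Run7.h925

open SimpleGraph

variable {V : Type*} {G : SimpleGraph V}

theorem chain_mid {R : V → V → Prop} {l a b c : List V} (h : l.IsChain R)
    (e : l = a ++ (b ++ c)) : b.IsChain R := by
  subst e
  exact (h.right_of_append).left_of_append

/-- Splitting a list at two of its elements. -/
theorem split_two [DecidableEq V] (l : List V) (u v : V) (hu : u ∈ l) (hv : v ∈ l)
    (huv : l.idxOf u < l.idxOf v) :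
    ∃ a b c : List V, l = a ++ u :: (b ++ v :: c) ∧ a.length = l.idxOf u ∧
      l.idxOf v = l.idxOf u + 1 + b.length := by
  have hlu : l.idxOf u < l.length := List.idxOf_lt_length_iff.mpr hu
  have hlv : l.idxOf v < l.length := List.idxOf_lt_length_iff.mpr hv
  have hgu : l[l.idxOf u] = u := List.getElem_idxOf hlu
  have hgv : l[l.idxOf v] = v := List.getElem_idxOf hlv
  set i := l.idxOf u with hi
  set j := l.idxOf v with hj
  refine ⟨l.take i, (l.drop (i + 1)).take (j - (i + 1)), l.drop (j + 1), ?_, ?_, ?_⟩
  · have h1 : l = l.take i ++ l.drop i := (List.take_append_drop i l).symm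
    have h2 : l.drop i = u :: l.drop (i + 1) := by
      rw [List.drop_eq_getElem_cons hlu, hgu]
    have h3 : l.drop (i + 1) = (l.drop (i + 1)).take (j - (i + 1)) ++
        (l.drop (i + 1)).drop (j - (i + 1)) := (List.take_append_drop _ _).symm
    have h4 : (l.drop (i + 1)).drop (j - (i + 1)) = l.drop j := by
      rw [List.drop_drop]; congr 1; omega
    have h5 : l.drop j = v :: l.drop (j + 1) := by
      rw [List.drop_eq_getElem_cons hlv, hgv]
    calc l = l.take i ++ l.drop i := h1
      _ = l.take i ++ u :: l.drop (i + 1) := by rw [h2]
      _ = l.take i ++ u :: ((l.drop (i + 1)).take (j - (i + 1)) ++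
            (l.drop (i + 1)).drop (j - (i + 1))) := by rw [← h3]
      _ = _ := by rw [h4, h5]
  · rw [List.length_take]; omega
  · rw [List.length_take, List.length_drop]; omega

theorem allCyc_of_oddCyc {k' : ℕ} (hk : 1 ≤ k') (h : OddCyc G k') : AllCyc G (2 * k') := by
  classical
  intro x y m hnd hch hyx hm
  set l : List V := x :: (m ++ [y]) with hl
  have hlen : l.length = m.length + 2 := by simp [hl]
  rcases Nat.even_or_odd m.length with hev | hodd
  swap
  · exact (h x y m hnd hch hyx hodd).mono subset_rfl (by omega)
  by_cases hex : ∃ (u v : V) (a b c : List V), l = a ++ u :: (b ++ v :: c) ∧ Odd b.length ∧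
      G.Adj u v
  · obtain ⟨u, v, a, b, c, hdec, hb, huv⟩ := hex
    -- first cycle
    have hch' := hch
    have hnd' := hnd
    rw [hdec] at hch' hnd'
    have hC1 : Col G {z | z ∈ u :: (b ++ [v])} k' := by
      apply h u v b _ _ huv.symm hb
      · have : List.Sublist (u :: (b ++ [v])) (a ++ u :: (b ++ v :: c)) := by
          have h1 : List.Sublist (b ++ [v]) (b ++ v :: c) :=
            List.Sublist.append (List.Sublist.refl b) (by simp)
          exact (List.Sublist.cons_cons u h1).trans (List.sublist_append_right a _)
        exact hnd'.sublist this
      · exact chain_mid (a := a) (b := u :: (b ++ [v])) (c := c) hch' (by simp)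
    -- second cycle
    have htot : a.length + b.length + c.length + 2 = m.length + 2 := by
      have := congrArg List.length hdec
      rw [hlen] at this
      simp at this
      omega
    have hca : Odd (c ++ a).length := by
      rw [List.length_append]
      rcases hev with ⟨e, he⟩
      rcases hb with ⟨g, hg⟩
      rw [Nat.odd_iff]; omega
    have hC2 : Col G {z | z ∈ v :: ((c ++ a) ++ [u])} k' := by
      apply h v u (c ++ a) _ _ huv hca
      · have hperm : List.Perm (v :: ((c ++ a) ++ [u])) ((v :: c) ++ (a ++ [u])) := by simp
        rw [hperm.nodup_iff]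
        have hperm2 : List.Perm ((v :: c) ++ (a ++ [u])) ((a ++ [u]) ++ (v :: c)) :=
          List.perm_append_comm
        rw [hperm2.nodup_iff]
        have : List.Sublist ((a ++ [u]) ++ (v :: c)) (a ++ u :: (b ++ v :: c)) := by
          have h1 : List.Sublist ([u] ++ (v :: c)) (u :: (b ++ v :: c)) := by
            simp only [List.singleton_append]
            exact List.Sublist.cons_cons u (List.sublist_append_right b _)
          rw [List.append_assoc]
          exact List.Sublist.append (List.Sublist.refl a) h1
        exact hnd'.sublist this
      · have e : v :: ((c ++ a) ++ [u]) = (v :: c) ++ (a ++ [u]) := by simp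
        rw [e, List.isChain_append]
        refine ⟨?_, ?_, ?_⟩
        · exact chain_mid (a := a ++ u :: b) (b := v :: c) (c := []) hch' (by simp)
        · exact chain_mid (a := []) (b := a ++ [u]) (c := b ++ v :: c) hch' (by simp)
        · intro s hs t ht
          have hs' : s = y := by
            have h1 : l.getLast? = some y := by
              rw [hl]; exact List.getLast?_concat (l := x :: m)
            rw [hdec] at h1
            simp only [List.getLast?_append, List.getLast?_cons, Option.mem_def] at h1 hs
            simp at h1 hs
            rw [h1] at hs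
            exact hs.symm
          have ht' : t = x := by
            have h1 : l.head? = some x := by simp [hl]
            rw [hdec] at h1
            cases a with
            | nil =>
              simp at h1 ht
              rw [← ht, h1]
            | cons a0 a1 =>
              simp at h1 ht
              rw [← ht, h1]
          rw [hs', ht']; exact hyx
    have := hC1.union hC2
    refine this.mono ?_ (by omega)
    intro z hz
    have hz' : z ∈ a ++ u :: (b ++ v :: c) := by rw [← hdec]; exact hz
    simp only [List.mem_append, List.mem_cons, Set.mem_union, Set.mem_ofPred_eq,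
      List.not_mem_nil, or_false] at hz' ⊢
    tauto
  · -- bipartite case
    refine Col.mono (m := 2) ?_ subset_rfl (by omega)
    refine ⟨fun z => (l.idxOf z) % 2, fun z _ => Nat.mod_lt _ (by decide), ?_⟩
    intro u hu v hv huv heq
    have hu' : u ∈ l := hu
    have hv' : v ∈ l := hv
    have hne : l.idxOf u ≠ l.idxOf v := by
      intro he
      have : u = v := (List.idxOf_inj hu').mp he
      exact G.ne_of_adj huv this
    rcases lt_or_gt_of_ne hne with hlt | hgt
    · obtain ⟨a, b, c, h1, h2, h3⟩ := split_two l u v hu' hv' hlt
      refine hex ⟨u, v, a, b, c, h1, ?_, huv⟩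
      rw [Nat.odd_iff]; simp only at heq; omega
    · obtain ⟨a, b, c, h1, h2, h3⟩ := split_two l v u hv' hu' hgt
      refine hex ⟨v, u, a, b, c, h1, ?_, huv.symm⟩
      rw [Nat.odd_iff]; simp only at heq; omega

/-- Every nonempty list has a nonempty maximal `M`-colourable prefix. -/
theorem exists_max_prefix {M : ℕ} :
    ∀ (s P : List V), Col G {z | z ∈ P} M → ∃ B r : List V, P ++ s = B ++ r ∧
      P.length ≤ B.length ∧ Col G {z | z ∈ B} M ∧
      ∀ x r', r = x :: r' → ¬ Col G {z | z ∈ B ++ [x]} M := by
  intro s
  induction s with
  | nil =>
    intro P hP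
    exact ⟨P, [], rfl, le_rfl, hP, by intro x r' h; simp at h⟩
  | cons a s ih =>
    intro P hP
    by_cases h : Col G {z | z ∈ P ++ [a]} M
    · obtain ⟨B, r, h1, h2, h3, h4⟩ := ih (P ++ [a]) h
      refine ⟨B, r, by rw [← h1]; simp, ?_, h3, h4⟩
      simp at h2; omega
    · refine ⟨P, a :: s, rfl, le_rfl, hP, ?_⟩
      intro x r' hx
      simp at hx
      rw [← hx.1]; exact h

theorem path_aux {M : ℕ} (hM : 1 ≤ M) (h : AllCyc G M) :
    ∀ (n : ℕ) (B r : List V), r.length ≤ n → (B ++ r).Nodup → (B ++ r).IsChain G.Adj →
      Col G {z | z ∈ B} M → (∀ x r', r = x :: r' → ¬ Col G {z | z ∈ B ++ [x]} M) →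
      ∃ f : V → ℕ, (∀ z ∈ B ++ r, f z < 2 * M) ∧ (∀ z ∈ B, f z < M) ∧
        ∀ u ∈ B ++ r, ∀ v ∈ B ++ r, G.Adj u v → f u ≠ f v := by
  classical
  intro n
  induction n with
  | zero =>
    intro B r hr hnd hch hB _
    have : r = [] := List.length_eq_zero_iff.mp (by omega)
    subst this
    obtain ⟨f, hf, hf'⟩ := hB
    refine ⟨f, ?_, hf, ?_⟩
    · intro z hz
      have := hf z (by simpa using hz)
      omega
    · intro u hu v hv
      exact hf' u (by simpa using hu) v (by simpa using hv)
  | succ n ih =>
    intro B r hr hnd hch hB hmax
    cases hr' : r with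
    | nil =>
      subst hr'
      obtain ⟨f, hf, hf'⟩ := hB
      refine ⟨f, ?_, hf, ?_⟩
      · intro z hz
        have := hf z (by simpa using hz)
        omega
      · intro u hu v hv
        exact hf' u (by simpa using hu) v (by simpa using hv)
    | cons x0 r0 =>
      obtain ⟨B', r', h1, h2, h3, h4⟩ :=
        exists_max_prefix (G := G) r0 [x0]
          ((col_singleton (x := x0) hM).mono (by intro z hz; simpa using hz) le_rfl)
      have hrr : r = B' ++ r' := by rw [hr', ← h1]; rfl
      have hB'len : 1 ≤ B'.length := by simpa using h2
      rw [← hr']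
      have hlen : r'.length ≤ n := by
        have := congrArg List.length hrr
        rw [List.length_append] at this
        omega
      have hndr : (B' ++ r').Nodup := by rw [← hrr]; exact hnd.of_append_right
      have hchr : (B' ++ r').IsChain G.Adj := by rw [← hrr]; exact hch.right_of_append
      obtain ⟨f', hf1, hf2, hf3⟩ := ih B' r' hlen hndr hchr h3 h4
      obtain ⟨g, hg1, hg2⟩ := hB
      rw [← hrr] at hf1 hf3
      -- no edges from `B` to `r'`
      have hno : ∀ u ∈ B, ∀ v ∈ r', ¬ G.Adj u v := by
        intro u hu v hv huv
        obtain ⟨B1, B2, hB12⟩ := List.append_of_mem hu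
        obtain ⟨C1, C2, hC12⟩ := List.append_of_mem hv
        have hinf : B ++ r = B1 ++ ((u :: ((B2 ++ B' ++ C1) ++ [v])) ++ C2) := by
          rw [hrr, hB12, hC12]; simp
        have hndm : (u :: ((B2 ++ B' ++ C1) ++ [v])).Nodup := by
          rw [hinf] at hnd
          exact hnd.of_append_right.of_append_left
        have hcyc := h u v (B2 ++ B' ++ C1) hndm (chain_mid hch hinf) huv.symm
          (by
            intro he
            have h0 : (B2 ++ B' ++ C1).length = 0 := by rw [he]; rfl
            rw [List.length_append, List.length_append] at h0
            omega)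
        cases hr0 : r' with
        | nil => rw [hr0] at hv; simp at hv
        | cons x1 r1 =>
          refine h4 x1 r1 hr0 (hcyc.mono ?_ le_rfl)
          intro z hz
          simp only [Set.mem_ofPred_eq, List.mem_append, List.mem_cons, List.not_mem_nil,
            or_false] at hz ⊢
          rcases hz with hz | hz
          · tauto
          · -- `z = x1` is the head of `C1 ++ v :: C2`
            subst hz
            rw [hr0] at hC12
            cases hC1 : C1 with
            | nil =>
              rw [hC1] at hC12
              simp at hC12
              right; right; exact hC12.1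
            | cons c1 cs =>
              rw [hC1] at hC12
              simp at hC12
              right; left; right
              rw [hC12.1]; simp
      -- disjointness
      have hdisj : ∀ u ∈ B, u ∉ r := by
        intro u hu hu'
        have := List.disjoint_of_nodup_append hnd
        exact this hu hu'
      refine ⟨fun z => if z ∈ B then g z else if f' z < M then f' z + M else f' z - M, ?_, ?_, ?_⟩
      · intro z hz
        by_cases hzB : z ∈ B
        · have := hg1 z hzB
          simp only [hzB, if_true]; omega
        · have hzr : z ∈ r := by
            rcases List.mem_append.mp hz with h | h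
            · exact absurd h hzB
            · exact h
          have := hf1 z hzr
          simp only [hzB, if_false]
          split_ifs <;> omega
      · intro z hz
        simpa [hz] using hg1 z hz
      · intro u hu v hv huv
        have hu2 : u ∉ B → u ∈ r := fun hn => (List.mem_append.mp hu).resolve_left hn
        have hv2 : v ∉ B → v ∈ r := fun hn => (List.mem_append.mp hv).resolve_left hn
        by_cases hu1 : u ∈ B <;> by_cases hv1 : v ∈ B
        · simpa [hu1, hv1] using hg2 u hu1 v hv1 huv
        · have hvr := hv2 hv1
          have hvB' : v ∈ B' := by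
            rw [hrr] at hvr
            rcases List.mem_append.mp hvr with h | h
            · exact h
            · exact absurd huv (hno u hu1 v h)
          have e1 := hf2 v hvB'
          have e2 := hg1 u hu1
          simp only [hu1, hv1, if_true, if_false, e1]
          omega
        · have hur := hu2 hu1
          have huB' : u ∈ B' := by
            rw [hrr] at hur
            rcases List.mem_append.mp hur with h | h
            · exact h
            · exact absurd huv.symm (hno v hv1 u h)
          have e1 := hf2 u huB'
          have e2 := hg1 v hv1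
          simp only [hu1, hv1, if_true, if_false, e1]
          omega
        · have e := hf3 u (hu2 hu1) v (hv2 hv1) huv
          have e1 := hf1 u (hu2 hu1)
          have e2 := hf1 v (hv2 hv1)
          simp only [hu1, hv1, if_false]
          split_ifs <;> omega

theorem allPath_of_allCyc {M : ℕ} (hM : 1 ≤ M) (h : AllCyc G M) : AllPath G (2 * M) := by
  intro l hnd hch
  obtain ⟨B, r, h1, _, h3, h4⟩ :=
    exists_max_prefix (G := G) l [] (by simpa using (col_of_empty (G := G) (n := M)))
  rw [List.nil_append] at h1
  rw [h1] at hnd hch
  obtain ⟨f, hf1, _, hf3⟩ := path_aux hM h r.length B r le_rfl hnd hch h3 h4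
  rw [h1]
  exact ⟨f, hf1, hf3⟩

/-- If no odd cycle spans a subgraph of chromatic number at least `k` (`k ≥ 2`), then every path
spans a `4(k-1)`-colourable subgraph. -/
theorem allPath_of_not {k : ℕ} (hk : 2 ≤ k) (h : ¬ Nb10b39f9.HasHighChromaticOddCycle G k) :
    AllPath G (4 * (k - 1)) := by
  have h1 := allCyc_of_oddCyc (by omega) (oddCyc_of_not k (by omega) h)
  have h2 := allPath_of_allCyc (by omega) h1
  have e : 2 * (2 * (k - 1)) = 4 * (k - 1) := by ring
  rw [e] at h2
  exact h2

end Run7.h925
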