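import Mathlib

set_option autoImplicit false

/-!
Virtual graphs: for every `j` there is a multigraph in which every `j`-colouring has a
monochromatic edge, while every set of edges that is sparse in the sense that it spans at most
`|W| + S` edges on every set `W` of vertices can be coloured properly with `2 t` colours, where
`2 S ≤ 2 ^ t`. Shift graphs do this.
-/

namespace Run7.h925

open Classical

/-- Sparse edge sets are coloured greedily as soon as the small vertex sets are under control. -/
theorem sparse_col {H E : Type} (src dst : E → H) (S q : ℕ) (hq : 2 ≤ q)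
    (E' : Finset E)
    (hE : ∀ W : Finset H, (E'.filter (fun e => src e ∈ W ∧ dst e ∈ W)).card ≤ W.card + S)
    (hsmall : ∀ W : Finset H, (q - 2) * W.card ≤ 2 * S →
      ∃ κ : H → Fin q, ∀ e ∈ E', src e ∈ W → dst e ∈ W → κ (src e) ≠ κ (dst e))
    (hloop : ∀ e ∈ E', src e ≠ dst e) :
    ∀ (n : ℕ) (W : Finset H), W.card = n →
      ∃ κ : H → Fin q, ∀ e ∈ E', src e ∈ W → dst e ∈ W → κ (src e) ≠ κ (dst e) := by
  intro n
  induction n with
  | zero =>
    intro W hW
    exact hsmall W (by rw [hW]; simp)
  | succ n ih =>
    intro W hW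
    by_cases hs : (q - 2) * W.card ≤ 2 * S
    · exact hsmall W hs
    · -- some vertex of `W` meets fewer than `q` edges inside `W`
      set F := E'.filter (fun e => src e ∈ W ∧ dst e ∈ W) with hF
      have hex : ∃ w ∈ W, (F.filter (fun e => src e = w ∨ dst e = w)).card < q := by
        by_contra hcon
        push Not at hcon
        have h1 : q * W.card ≤ ∑ w ∈ W, (F.filter (fun e => src e = w ∨ dst e = w)).card := by
          calc q * W.card = ∑ w ∈ W, q := by rw [Finset.sum_const, smul_eq_mul, mul_comm]
            _ ≤ _ := Finset.sum_le_sum (fun w hw => hcon w hw)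
        have h2 : ∑ w ∈ W, (F.filter (fun e => src e = w ∨ dst e = w)).card ≤ 2 * F.card := by
          have : ∀ w ∈ W, (F.filter (fun e => src e = w ∨ dst e = w)).card ≤
              (F.filter (fun e => src e = w)).card + (F.filter (fun e => dst e = w)).card := by
            intro w _
            rw [Finset.filter_or]
            exact Finset.card_union_le _ _
          refine (Finset.sum_le_sum this).trans ?_
          rw [Finset.sum_add_distrib]
          have h3 : ∑ w ∈ W, (F.filter (fun e => src e = w)).card = F.card := by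
            rw [Finset.card_eq_sum_card_fiberwise (f := src) (t := W)]
            intro e he
            exact (Finset.mem_filter.mp he).2.1
          have h4 : ∑ w ∈ W, (F.filter (fun e => dst e = w)).card = F.card := by
            rw [Finset.card_eq_sum_card_fiberwise (f := dst) (t := W)]
            intro e he
            exact (Finset.mem_filter.mp he).2.2
          omega
        have h5 := hE W
        rw [← hF] at h5
        have h6 : q * W.card ≤ 2 * W.card + 2 * S := by omega
        apply hs
        have h7 : q * W.card = (q - 2) * W.card + 2 * W.card := by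
          rw [← add_mul]; congr 1; omega
        omega
      obtain ⟨w, hw, hwq⟩ := hex
      obtain ⟨κ, hκ⟩ := ih (W.erase w) (by rw [Finset.card_erase_of_mem hw]; omega)
      -- a colour missing around `w`
      set A : Finset (Fin q) := (F.filter (fun e => src e = w ∨ dst e = w)).image
        (fun e => if src e = w then κ (dst e) else κ (src e)) with hA
      have hAc : A.card < q := (Finset.card_image_le).trans_lt hwq
      obtain ⟨x, hx⟩ : ∃ x, x ∉ A := by
        by_contra hcon
        push Not at hcon
        have : A = Finset.univ := Finset.eq_univ_iff_forall.mpr hcon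
        rw [this, Finset.card_univ, Fintype.card_fin] at hAc
        omega
      refine ⟨Function.update κ w x, ?_⟩
      intro e he h1 h2
      have heF : e ∈ F := Finset.mem_filter.mpr ⟨he, h1, h2⟩
      by_cases hsw : src e = w
      · have hdw : dst e ≠ w := fun h => hloop e he (hsw.trans h.symm)
        rw [hsw, Function.update_self, Function.update_of_ne hdw]
        intro hxe
        apply hx
        rw [hA, Finset.mem_image]
        exact ⟨e, Finset.mem_filter.mpr ⟨heF, Or.inl hsw⟩, by rw [if_pos hsw]; exact hxe.symm⟩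
      · by_cases hdw : dst e = w
        · rw [hdw, Function.update_self, Function.update_of_ne hsw]
          intro hxe
          apply hx
          rw [hA, Finset.mem_image]
          exact ⟨e, Finset.mem_filter.mpr ⟨heF, Or.inr hdw⟩, by rw [if_neg hsw]; exact hxe⟩
        · rw [Function.update_of_ne hsw, Function.update_of_ne hdw]
          exact hκ e he (Finset.mem_erase.mpr ⟨hsw, h1⟩) (Finset.mem_erase.mpr ⟨hdw, h2⟩)

/-- A virtual graph. -/
structure VG (j S q : ℕ) where
  H : Type
  E : Type
  finH : Finite H
  finE : Finite E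
  src : E → H
  dst : E → H
  mono : ∀ κ : H → Fin j, ∃ e, κ (src e) = κ (dst e)
  col : ∀ E' : Finset E,
    (∀ W : Finset H, (E'.filter (fun e => src e ∈ W ∧ dst e ∈ W)).card ≤ W.card + S) →
    ∃ κ : H → Fin q, ∀ e ∈ E', κ (src e) ≠ κ (dst e)

/-- The vertices of the shift graph on `m` points. -/
def ShH (m : ℕ) : Type := {p : Fin m × Fin m // p.1 < p.2}

/-- The edges of the shift graph on `m` points. -/
def ShE (m : ℕ) : Type := {p : Fin m × Fin m × Fin m // p.1 < p.2.1 ∧ p.2.1 < p.2.2}

instance (m : ℕ) : Finite (ShH m) := by unfold ShH; infer_instance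
instance (m : ℕ) : Finite (ShE m) := by unfold ShE; infer_instance

/-- The first vertex of an edge. -/
def shSrc {m : ℕ} (e : ShE m) : ShH m := ⟨(e.1.1, e.1.2.1), e.2.1⟩

/-- The second vertex of an edge. -/
def shDst {m : ℕ} (e : ShE m) : ShH m := ⟨(e.1.2.1, e.1.2.2), e.2.2⟩

theorem shift_mono (j : ℕ) (κ : ShH (2 ^ j + 1) → Fin j) : ∃ e, κ (shSrc e) = κ (shDst e) := by
  by_contra hcon
  push Not at hcon
  let A : Fin (2 ^ j + 1) → Finset (Fin j) := fun a =>
    Finset.univ.filter (fun i => ∃ b, ∃ h : a < b, κ ⟨(a, b), h⟩ = i)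
  have hinj : Function.Injective A := by
    have key : ∀ a b, a < b → A a ≠ A b := by
      intro a b hab heq
      have h1 : κ ⟨(a, b), hab⟩ ∈ A a := by
        simp only [A, Finset.mem_filter, Finset.mem_univ, true_and]
        exact ⟨b, hab, rfl⟩
      rw [heq] at h1
      simp only [A, Finset.mem_filter, Finset.mem_univ, true_and] at h1
      obtain ⟨c, hbc, hc⟩ := h1
      exact hcon ⟨(a, b, c), hab, hbc⟩ hc.symm
    intro a b heq
    rcases lt_trichotomy a b with h | h | h
    · exact absurd heq (key a b h)
    · exact h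
    · exact absurd heq.symm (key b a h)
  have := Fintype.card_le_of_injective A hinj
  rw [Fintype.card_fin, Fintype.card_finset, Fintype.card_fin] at this
  omega

theorem shift_small {m t : ℕ} (ht : 1 ≤ t) (W : Finset (ShH m)) (hW : 2 * W.card ≤ 2 ^ t) :
    ∃ κ : ShH m → Fin (2 * t), ∀ e, shSrc e ∈ W → shDst e ∈ W → κ (shSrc e) ≠ κ (shDst e) := by
  -- the points touched by `W`
  set X : Finset (Fin m) := W.image (fun p => p.1.1) ∪ W.image (fun p => p.1.2) with hX
  have hXc : X.card ≤ 2 ^ t := by
    refine (Finset.card_union_le _ _).trans ?_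
    have h1 := Finset.card_image_le (s := W) (f := fun p : ShH m => p.1.1)
    have h2 := Finset.card_image_le (s := W) (f := fun p : ShH m => p.1.2)
    omega
  -- a binary code
  have hcode : ∃ g : Fin m → (Fin t → Bool), Set.InjOn g (X : Set (Fin m)) := by
    have hc : X.card ≤ (Finset.univ : Finset (Fin t → Bool)).card := by
      rw [Finset.card_univ]; simp; exact hXc
    obtain ⟨f, hf, hf'⟩ := (Finset.exists_subset_card_eq hc)
    have he : Nonempty ((X : Set (Fin m)) ≃ (f : Set (Fin t → Bool))) := by
      refine ⟨(Finset.equivOfCardEq hf'.symm)⟩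
    obtain ⟨φ⟩ := he
    refine ⟨fun x => if hx : x ∈ X then (φ ⟨x, hx⟩).1 else fun _ => false, ?_⟩
    intro a ha b hb hab
    rw [Finset.mem_coe] at ha hb
    simp only [ha, hb, dif_pos] at hab
    have := φ.injective (Subtype.ext hab)
    simpa using this
  obtain ⟨g, hg⟩ := hcode
  -- the bit in which the two ends of a pair differ
  let bit : ShH m → Fin t := fun p =>
    if h : ∃ i, g p.1.1 i ≠ g p.1.2 i then h.choose else ⟨0, by omega⟩
  have hbit : ∀ p ∈ W, g p.1.1 (bit p) ≠ g p.1.2 (bit p) := by
    intro p hp
    have h1 : p.1.1 ∈ X := by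
      rw [hX, Finset.mem_union]; left
      exact Finset.mem_image.mpr ⟨p, hp, rfl⟩
    have h2 : p.1.2 ∈ X := by
      rw [hX, Finset.mem_union]; right
      exact Finset.mem_image.mpr ⟨p, hp, rfl⟩
    have hex : ∃ i, g p.1.1 i ≠ g p.1.2 i := by
      by_contra hcon
      push Not at hcon
      have := hg (Finset.mem_coe.mpr h1) (Finset.mem_coe.mpr h2) (funext hcon)
      exact absurd this (ne_of_lt p.2)
    simp only [bit]
    rw [dif_pos hex]
    exact hex.choose_spec
  refine ⟨fun p => ⟨(bit p).1 + (if g p.1.1 (bit p) then t else 0), ?_⟩, ?_⟩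
  · have := (bit p).2
    split_ifs <;> omega
  · intro e h1 h2 heq
    have hb1 := hbit _ h1
    have hb2 := hbit _ h2
    have hl1 := (bit (shSrc e)).2
    have hl2 := (bit (shDst e)).2
    simp only [Fin.mk.injEq] at heq
    have hbeq : bit (shSrc e) = bit (shDst e) ∧
        (g (shSrc e).1.1 (bit (shSrc e)) = g (shDst e).1.1 (bit (shDst e))) := by
      by_cases c1 : g (shSrc e).1.1 (bit (shSrc e)) = true <;>
      by_cases c2 : g (shDst e).1.1 (bit (shDst e)) = true
      · rw [if_pos c1, if_pos c2] at heq
        exact ⟨Fin.ext (by omega), by rw [c1, c2]⟩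
      · rw [if_pos c1, if_neg c2] at heq
        omega
      · rw [if_neg c1, if_pos c2] at heq
        omega
      · rw [if_neg c1, if_neg c2] at heq
        refine ⟨Fin.ext (by omega), ?_⟩
        rw [Bool.not_eq_true] at c1 c2
        rw [c1, c2]
    obtain ⟨h3, h4⟩ := hbeq
    rw [← h3] at h4
    apply hb1
    rw [h4]
    rfl

/-- The shift graph as a virtual graph. -/
theorem exists_VG (j S t : ℕ) (ht : 2 ≤ t) (hS : 2 * S ≤ 2 ^ t) : Nonempty (VG j S (2 * t)) := by
  refine ⟨⟨ShH (2 ^ j + 1), ShE (2 ^ j + 1), inferInstance, inferInstance, shSrc, shDst,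
    shift_mono j, ?_⟩⟩
  intro E' hE
  have hfin : Finite (ShH (2 ^ j + 1)) := inferInstance
  have hfin' := Fintype.ofFinite (ShH (2 ^ j + 1))
  have hloop : ∀ e ∈ E', shSrc e ≠ shDst e := by
    intro e _ h
    have : (shSrc e).1.1 = (shDst e).1.1 := by rw [h]
    exact absurd this (ne_of_lt e.2.1)
  obtain ⟨κ, hκ⟩ := sparse_col (H := ShH (2 ^ j + 1)) (E := ShE (2 ^ j + 1)) shSrc shDst S (2 * t)
    (by omega) E' hE
    (by
      intro W hW
      have hc : 2 * W.card ≤ 2 ^ t := by
        have : 2 * W.card ≤ (2 * t - 2) * W.card := Nat.mul_le_mul_right _ (by omega)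
        omega
      obtain ⟨κ, hκ⟩ := shift_small (t := t) (by omega) W hc
      exact ⟨κ, fun e _ h1 h2 => hκ e h1 h2⟩)
    hloop _ Finset.univ rfl
  exact ⟨κ, fun e he => hκ e he (Finset.mem_univ _) (Finset.mem_univ _)⟩

end Run7.h925
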