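import Pool.Agent.Run7.h925.Hub
import Pool.Agent.Run7.h925.Shift

set_option autoImplicit false

/-!
A graph with 735 vertices that is not 4-colourable while all its paths span 3-colourable subgraphs.
-/

namespace Run7.h925

/-- first ends of the 21 virtual edges -/
def src4 : Fin 21 → Fin 10 := ![0, 1, 2, 3, 0, 4, 1, 5, 2, 6, 3, 7, 8, 8, 8, 8, 9, 9, 9, 9, 8]

/-- second ends of the 21 virtual edges -/
def dst4 : Fin 21 → Fin 10 := ![4, 5, 6, 7, 1, 5, 2, 6, 3, 7, 4, 0, 0, 4, 2, 6, 1, 5, 3, 7, 9]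

/-- roles of the hubs -/
def hrole : Fin 10 → Bool :=
  ![false, true, false, true, false, true, false, true, true, false]

/-- roles of the vertices of the triangles -/
def grole : Fin 21 → Fin 3 → Bool :=
  ![![false, false, true], ![false, true, true], ![false, false, true], ![false, true, true],
    ![false, false, true], ![false, false, true], ![false, false, true], ![false, false, true],
    ![false, false, true], ![false, false, true], ![false, false, true], ![false, false, true],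
    ![false, false, true], ![false, false, true], ![false, false, true], ![false, false, true],
    ![false, false, true], ![false, false, true], ![false, false, true], ![false, false, true],
    ![false, false, true]]

/-- whether a vertex of a triangle is attached to the second end -/
def gatt : Fin 21 → Fin 3 → Bool :=
  ![![false, true, false], ![false, false, true], ![false, true, false], ![false, false, true],
    ![false, true, false], ![false, true, false], ![false, true, true], ![false, true, true],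
    ![false, true, false], ![false, true, false], ![false, true, true], ![false, true, true],
    ![false, false, true], ![false, false, true], ![false, false, true], ![false, false, true],
    ![false, true, false], ![false, true, false], ![false, true, false], ![false, true, false],
    ![false, false, true]]

/-- colourings of the hubs that are proper except at one of the first 12 virtual edges -/
def tab : Fin 12 → Fin 10 → Fin 3 :=
  ![![1, 0, 2, 0, 1, 2, 1, 2, 0, 1], ![1, 0, 2, 0, 2, 0, 1, 2, 0, 1],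
    ![1, 2, 1, 0, 2, 0, 1, 2, 0, 1], ![1, 2, 1, 0, 2, 0, 2, 0, 0, 1],
    ![2, 2, 1, 2, 1, 0, 2, 0, 0, 1], ![1, 0, 2, 0, 2, 2, 1, 2, 0, 1],
    ![1, 2, 2, 0, 2, 0, 1, 2, 0, 1], ![2, 0, 1, 2, 1, 2, 2, 0, 0, 1],
    ![2, 0, 2, 2, 1, 2, 1, 0, 0, 1], ![1, 2, 1, 0, 2, 0, 2, 2, 0, 1],
    ![1, 2, 1, 2, 2, 0, 2, 0, 0, 1], ![2, 0, 2, 0, 1, 2, 1, 2, 0, 1]]

/-- the colour forbidden by a role -/
def forb (b : Bool) : Fin 3 := if b then 1 else 0

theorem tab_role : ∀ (e0 : Fin 12) (h : Fin 10), tab e0 h ≠ forb (hrole h) := by decide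

theorem tab_pq : ∀ (e0 : Fin 12), tab e0 8 = 0 ∧ tab e0 9 = 1 := by decide

theorem tab_proper : ∀ (e0 : Fin 12) (e : Fin 21), e.1 ≠ e0.1 →
    tab e0 (src4 e) ≠ tab e0 (dst4 e) := by decide

theorem gadget_col : ∀ (e : Fin 21) (x y : Fin 3), x ≠ y → x ≠ forb (hrole (src4 e)) →
    y ≠ forb (hrole (dst4 e)) → (src4 e = 8 → x = 0) → (src4 e = 9 → x = 1) →
    (dst4 e = 9 → y = 1) → ∃ p q r : Fin 3, p ≠ q ∧ q ≠ r ∧ p ≠ r ∧
      ∀ u : Fin 3, ![p, q, r] u ≠ forb (grole e u) ∧
        ![p, q, r] u ≠ (if gatt e u then y else x) := by decide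

/-- the first 12 virtual edges -/
def inc : Fin 12 → Fin 21 := Fin.castLE (by norm_num)

theorem inc_inj : Function.Injective inc := Fin.castLE_injective _

theorem inc_hubs : ∀ e0 : Fin 12, (src4 (inc e0)).1 < 8 ∧ (dst4 (inc e0)).1 < 8 := by decide

theorem low_card : (Finset.univ.filter (fun h : Fin 10 => h.1 < 8)).card = 8 := by decide

/-- attachments in the inner graph -/
def att4 (e : Fin 21) (u : Fin 3) : Fin 10 := if gatt e u then dst4 e else src4 e

/-- the inner graph, with 73 vertices -/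
def G4 : SimpleGraph (Fin 10 ⊕ (Fin 21 × Fin 3)) := hubGraph att4 ⊤

/-- roles of the vertices of the inner graph -/
def role4 : Fin 10 ⊕ (Fin 21 × Fin 3) → Bool
  | .inl h => hrole h
  | .inr p => grole p.1 p.2

theorem att4_or (e : Fin 21) (u : Fin 3) : att4 e u = src4 e ∨ att4 e u = dst4 e := by
  unfold att4
  split_ifs
  · exact Or.inr rfl
  · exact Or.inl rfl

/-- The linear forests with at most three components in the inner graph have a colouring in which
no vertex has the colour forbidden by its role. -/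
theorem G4_col (U : Finset (Fin 10 ⊕ (Fin 21 × Fin 3))) (pos : Fin 10 ⊕ (Fin 21 × Fin 3) → ℕ)
    (hU : Lin G4 3 U pos) : ∃ φ : Fin 10 ⊕ (Fin 21 × Fin 3) → Fin 3,
      (∀ u ∈ U, φ u ≠ forb (role4 u)) ∧ ∀ u ∈ U, ∀ v ∈ U, G4.Adj u v → φ u ≠ φ v := by
  have hmiss : ∃ e0 : Fin 12, fib U (inc e0) = ∅ := by
    by_contra hcon
    push Not at hcon
    have h1 := visited_card att4_or hU (Finset.univ.map ⟨inc, inc_inj⟩)
      (Finset.univ.filter (fun h : Fin 10 => h.1 < 8)) (by
        intro e he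
        rw [Finset.mem_map] at he
        obtain ⟨e0, _, rfl⟩ := he
        exact ⟨hcon e0, Finset.mem_filter.mpr ⟨Finset.mem_univ _, (inc_hubs e0).1⟩,
          Finset.mem_filter.mpr ⟨Finset.mem_univ _, (inc_hubs e0).2⟩⟩)
    rw [Finset.card_map, Finset.card_univ, Fintype.card_fin, low_card] at h1
    omega
  obtain ⟨e0, he0⟩ := hmiss
  have hgad : ∀ e : Fin 21, ∃ ψ : Fin 3 → Fin 3, (fib U e).Nonempty →
      (∀ u, ψ u ≠ forb (grole e u) ∧ ψ u ≠ tab e0 (att4 e u)) ∧ ∀ u v, u ≠ v → ψ u ≠ ψ v := by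
    intro e
    by_cases hne : (fib U e).Nonempty
    · have hee : e.1 ≠ e0.1 := by
        intro h
        have : e = inc e0 := Fin.ext h
        rw [this, he0] at hne
        exact absurd hne Finset.not_nonempty_empty
      obtain ⟨p, q, r, h1, h2, h3, h4⟩ := gadget_col e (tab e0 (src4 e)) (tab e0 (dst4 e))
        (tab_proper e0 e hee) (tab_role e0 _) (tab_role e0 _)
        (fun h => by rw [h]; exact (tab_pq e0).1) (fun h => by rw [h]; exact (tab_pq e0).2)
        (fun h => by rw [h]; exact (tab_pq e0).2)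
      refine ⟨![p, q, r], fun _ => ⟨?_, ?_⟩⟩
      · intro u
        refine ⟨(h4 u).1, ?_⟩
        have := (h4 u).2
        unfold att4
        split_ifs with h
        · rw [if_pos h] at this; exact this
        · rw [if_neg h] at this; exact this
      · intro u v huv
        fin_cases u <;> fin_cases v <;> simp at huv ⊢ <;> first | assumption | (exact Ne.symm (by assumption))
    · exact ⟨fun _ => 0, fun h => absurd h hne⟩
  choose ψ hψ using hgad
  refine ⟨fun x => match x with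
    | .inl h => tab e0 h
    | .inr p => ψ p.1 p.2, ?_, ?_⟩
  · rintro (h | ⟨e, u⟩) hu
    · exact tab_role e0 h
    · exact ((hψ e ⟨u, mem_fib.mpr hu⟩).1 u).1
  · rintro (h | ⟨e, v⟩) hu (h' | ⟨e', v'⟩) hv hadj
    · exact absurd hadj id
    · have h1 : h = att4 e' v' := hadj
      have := ((hψ e' ⟨v', mem_fib.mpr hv⟩).1 v').2
      rw [h1]
      exact this.symm
    · have h1 : h' = att4 e v := hadj
      have := ((hψ e ⟨v, mem_fib.mpr hu⟩).1 v).2
      rw [h1]
      exact this
    · have h1 : e = e' := hadj.1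
      subst h1
      exact (hψ e ⟨v, mem_fib.mpr hu⟩).2 v v' hadj.2

theorem chain_up (P Q R a b a' b' : Fin 3) (h1 : P ≠ Q) (h2 : R ≠ P) (h3 : R ≠ Q) (h4 : a ≠ P)
    (h5 : b ≠ P) (h6 : a ≠ b) (h7 : a' ≠ Q) (h8 : b' ≠ Q) (h9 : a' ≠ b') (h10 : a ≠ a')
    (h11 : b ≠ b') : (a = R → b' = R) ∧ (b = R → a' = R) := by
  constructor
  · intro h
    omega
  · intro h
    omega

theorem chain_start : ∀ P Q R a b : Fin 3, P ≠ Q → R ≠ P → R ≠ Q → a ≠ P → b ≠ P → a ≠ b →
    a = R ∨ b = R := by decide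

theorem third : ∀ P Q : Fin 3, P ≠ Q → ∃ R, R ≠ P ∧ R ≠ Q := by decide

/-- every 3-colouring of the ten hubs has a monochromatic virtual edge -/
theorem mono4 (κ : Fin 10 → Fin 3) : ∃ e, κ (src4 e) = κ (dst4 e) := by
  by_contra hcon
  push Not at hcon
  have e0 : κ 0 ≠ κ 4 := hcon 0
  have e1 : κ 1 ≠ κ 5 := hcon 1
  have e2 : κ 2 ≠ κ 6 := hcon 2
  have e3 : κ 3 ≠ κ 7 := hcon 3
  have e4 : κ 0 ≠ κ 1 := hcon 4
  have e5 : κ 4 ≠ κ 5 := hcon 5
  have e6 : κ 1 ≠ κ 2 := hcon 6
  have e7 : κ 5 ≠ κ 6 := hcon 7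
  have e8 : κ 2 ≠ κ 3 := hcon 8
  have e9 : κ 6 ≠ κ 7 := hcon 9
  have e10 : κ 3 ≠ κ 4 := hcon 10
  have e11 : κ 7 ≠ κ 0 := hcon 11
  have e12 : κ 8 ≠ κ 0 := hcon 12
  have e13 : κ 8 ≠ κ 4 := hcon 13
  have e14 : κ 8 ≠ κ 2 := hcon 14
  have e15 : κ 8 ≠ κ 6 := hcon 15
  have e16 : κ 9 ≠ κ 1 := hcon 16
  have e17 : κ 9 ≠ κ 5 := hcon 17
  have e18 : κ 9 ≠ κ 3 := hcon 18
  have e19 : κ 9 ≠ κ 7 := hcon 19
  have e20 : κ 8 ≠ κ 9 := hcon 20
  obtain ⟨R, hR1, hR2⟩ := third _ _ e20
  have c1 := chain_up (κ 8) (κ 9) R (κ 0) (κ 4) (κ 1) (κ 5) e20 hR1 hR2 e12.symm e13.symm e0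
    e16.symm e17.symm e1 e4 e5
  have c2 := chain_up (κ 9) (κ 8) R (κ 1) (κ 5) (κ 2) (κ 6) e20.symm hR2 hR1 e16.symm e17.symm e1
    e14.symm e15.symm e2 e6 e7
  have c3 := chain_up (κ 8) (κ 9) R (κ 2) (κ 6) (κ 3) (κ 7) e20 hR1 hR2 e14.symm e15.symm e2
    e18.symm e19.symm e3 e8 e9
  rcases chain_start (κ 8) (κ 9) R (κ 0) (κ 4) e20 hR1 hR2 e12.symm e13.symm e0 with h | h
  · have h1 := c3.1 (c2.2 (c1.1 h))
    exact e11 (h1.trans h.symm)
  · have h1 := c3.2 (c2.1 (c1.2 h))
    exact e10 (h1.trans h.symm)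

theorem G4_not_col : ¬ G4.Colorable 3 := by
  rintro ⟨C⟩
  obtain ⟨e, he⟩ := mono4 (fun h => C (Sum.inl h))
  have hav : ∀ u : Fin 3, C (Sum.inr (e, u)) ≠ C (Sum.inl (src4 e)) := by
    intro u
    have hadj : G4.Adj (Sum.inl (att4 e u)) (Sum.inr (e, u)) := rfl
    have h1 := C.valid hadj
    rcases att4_or e u with h | h
    · rw [h] at h1; exact h1.symm
    · rw [h, ← he] at h1; exact h1.symm
  have hne : ∀ u v : Fin 3, u ≠ v → C (Sum.inr (e, u)) ≠ C (Sum.inr (e, v)) := by
    intro u v huv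
    have hadj : G4.Adj (Sum.inr (e, u)) (Sum.inr (e, v)) := ⟨rfl, huv⟩
    exact C.valid hadj
  have key : ∀ x y z w : Fin 3, x ≠ w → y ≠ w → z ≠ w → x ≠ y → y ≠ z → x ≠ z → False := by
    intro x y z w h1 h2 h3 h4 h5 h6
    omega
  exact key _ _ _ _ (hav 0) (hav 1) (hav 2) (hne 0 1 (by decide)) (hne 1 2 (by decide))
    (hne 0 2 (by decide))

/-- the ten pairs of outer hubs -/
abbrev E5 : Type := {p : Fin 5 × Fin 5 // p.1 < p.2}

/-- attachments in the outer graph -/
def att5 (e : E5) (v : Fin 10 ⊕ (Fin 21 × Fin 3)) : Fin 5 := if role4 v then e.1.2 else e.1.1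

/-- the outer graph, with 735 vertices -/
def G5 : SimpleGraph (Fin 5 ⊕ (E5 × (Fin 10 ⊕ (Fin 21 × Fin 3)))) := hubGraph att5 G4

theorem att5_or (e : E5) (v : Fin 10 ⊕ (Fin 21 × Fin 3)) :
    att5 e v = e.1.1 ∨ att5 e v = e.1.2 := by
  unfold att5
  split_ifs
  · exact Or.inr rfl
  · exact Or.inl rfl

theorem G5_not_col : ¬ G5.Colorable 4 := by
  rintro ⟨C⟩
  have hpig : ∃ a b : Fin 5, a < b ∧ C (Sum.inl a) = C (Sum.inl b) := by
    by_contra hcon
    push Not at hcon
    have hinj : Function.Injective (fun a : Fin 5 => C (Sum.inl a)) := by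
      intro a b hab
      rcases lt_trichotomy a b with h | h | h
      · exact absurd hab (hcon a b h)
      · exact h
      · exact absurd hab.symm (hcon b a h)
    have := Fintype.card_le_of_injective _ hinj
    simp at this
  obtain ⟨a, b, hab, hC⟩ := hpig
  let e : E5 := ⟨(a, b), hab⟩
  have hav : ∀ v, C (Sum.inr (e, v)) ≠ C (Sum.inl a) := by
    intro v
    have hadj : G5.Adj (Sum.inl (att5 e v)) (Sum.inr (e, v)) := rfl
    have h1 := C.valid hadj
    rcases att5_or e v with h | h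
    · rw [h] at h1; exact h1.symm
    · rw [h] at h1
      have h2 : C (Sum.inl b) ≠ C (Sum.inr (e, v)) := h1
      rw [← hC] at h2
      exact h2.symm
  apply G4_not_col
  have hcol : G4.Coloring {x : Fin 4 // x ≠ C (Sum.inl a)} :=
    SimpleGraph.Coloring.mk (fun v => ⟨C (Sum.inr (e, v)), hav v⟩) (by
      intro x y hxy h
      have h2 : G5.Adj (Sum.inr (e, x)) (Sum.inr (e, y)) := ⟨rfl, hxy⟩
      exact C.valid h2 (Subtype.ext_iff.mp h))
  have := hcol.colorable
  have hcard : Fintype.card {x : Fin 4 // x ≠ C (Sum.inl a)} = 3 := by simp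
  rwa [hcard] at this

/-- a permutation of the colours that moves `0, 1` to two given colours -/
theorem exists_perm : ∀ x y : Fin 3, x ≠ y → ∃ σ : Fin 3 → Fin 3, (∀ a b, σ a = σ b → a = b) ∧
    σ 0 = x ∧ σ 1 = y := by decide

/-- All paths of the outer graph are 3-colourable. -/
theorem G5_col (U : Finset (Fin 5 ⊕ (E5 × (Fin 10 ⊕ (Fin 21 × Fin 3)))))
    (pos : Fin 5 ⊕ (E5 × (Fin 10 ⊕ (Fin 21 × Fin 3))) → ℕ) (hU : Lin G5 1 U pos) :
    ∃ φ : Fin 5 ⊕ (E5 × (Fin 10 ⊕ (Fin 21 × Fin 3))) → Fin 3,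
      ∀ u ∈ U, ∀ v ∈ U, G5.Adj u v → φ u ≠ φ v := by
  classical
  -- colour the outer hubs
  have hhub : ∃ κ : Fin 5 → Fin 3, ∀ e : E5, (fib U e).Nonempty → κ e.1.1 ≠ κ e.1.2 := by
    set E' : Finset E5 := Finset.univ.filter (fun e => (fib U e).Nonempty) with hE'
    obtain ⟨κ, hκ⟩ := sparse_col (fun e : E5 => e.1.1) (fun e : E5 => e.1.2) 1 3 (by norm_num) E'
      (by
        intro W
        have hv := visited_card att5_or hU
          (E'.filter (fun e => e.1.1 ∈ W ∧ e.1.2 ∈ W)) W (by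
            intro e he
            rw [Finset.mem_filter] at he
            exact ⟨(Finset.mem_filter.mp he.1).2, he.2⟩)
        convert hv)
      (by
        intro W hW
        have hW2 : W.card ≤ 2 := by omega
        have hex : ∃ κ : Fin 5 → Fin 3, Set.InjOn κ (W : Set (Fin 5)) := by
          have hc : W.card ≤ (Finset.univ : Finset (Fin 3)).card := by simp; omega
          obtain ⟨f, hf, hf'⟩ := Finset.exists_subset_card_eq hc
          let φ := Finset.equivOfCardEq hf'.symm
          refine ⟨fun x => if hx : x ∈ W then (φ ⟨x, hx⟩).1 else 0, ?_⟩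
          intro a ha b hb hab
          rw [Finset.mem_coe] at ha hb
          simp only [ha, hb, dif_pos] at hab
          have := φ.injective (Subtype.ext hab)
          simpa using this
        obtain ⟨κ, hκ⟩ := hex
        refine ⟨κ, fun e _ h1 h2 h => ?_⟩
        have := hκ (Finset.mem_coe.mpr h1) (Finset.mem_coe.mpr h2) h
        exact absurd this (ne_of_lt e.2))
      (fun e _ => ne_of_lt e.2) _ Finset.univ rfl
    exact ⟨κ, fun e he => hκ e (Finset.mem_filter.mpr ⟨Finset.mem_univ _, he⟩)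
      (Finset.mem_univ _) (Finset.mem_univ _)⟩
  obtain ⟨κ, hκ⟩ := hhub
  have hgad : ∀ e : E5, ∃ φ : Fin 10 ⊕ (Fin 21 × Fin 3) → Fin 3,
      (∀ v ∈ fib U e, φ v ≠ κ (att5 e v)) ∧
      ∀ u ∈ fib U e, ∀ v ∈ fib U e, G4.Adj u v → φ u ≠ φ v := by
    intro e
    by_cases hne : (fib U e).Nonempty
    · obtain ⟨φ, h1, h2⟩ := G4_col (fib U e) _ (lin_fib att5_or hU e)
      obtain ⟨σ, hσ, hσ0, hσ1⟩ := exists_perm _ _ (hκ e hne)
      refine ⟨fun v => σ (φ v), ?_, ?_⟩
      · intro v hv h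
        apply h1 v hv
        unfold att5 at h
        unfold forb
        split_ifs at h ⊢
        · exact hσ _ _ (h.trans hσ1.symm)
        · exact hσ _ _ (h.trans hσ0.symm)
      · intro u hu v hv huv h
        exact h2 u hu v hv huv (hσ _ _ h)
    · rw [Finset.not_nonempty_iff_eq_empty] at hne
      exact ⟨fun _ => 0, by simp [hne], by simp [hne]⟩
  choose ψ hψ1 hψ2 using hgad
  refine ⟨fun x => match x with
    | .inl h => κ h
    | .inr p => ψ p.1 p.2, ?_⟩
  rintro (h | ⟨e, v⟩) hu (h' | ⟨e', v'⟩) hv hadj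
  · exact absurd hadj id
  · have h1 : h = att5 e' v' := hadj
    have := hψ1 e' v' (mem_fib.mpr hv)
    rw [h1]
    exact this.symm
  · have h1 : h' = att5 e v := hadj
    have := hψ1 e v (mem_fib.mpr hu)
    rw [h1]
    exact this
  · have h1 : e = e' := hadj.1
    subst h1
    exact hψ2 e v (mem_fib.mpr hu) v' (mem_fib.mpr hv) hadj.2

end Run7.h925
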