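import Pool.Agent.Run7.h925.KLog
import Pool.Agent.Run7.h925.Five

set_option autoImplicit false

/-!
From linear forests to paths.
-/

namespace Run7.h925

theorem allPath_of_lin {V : Type*} {G : SimpleGraph V} {c : ℕ}
    (h : ∀ (U : Finset V) (pos : V → ℕ), Lin G 1 U pos →
      ∃ φ : V → Fin c, ∀ u ∈ U, ∀ v ∈ U, G.Adj u v → φ u ≠ φ v) : AllPath G c := by
  classical
  intro l hnd hch
  obtain ⟨φ, h'⟩ := h _ _ (lin_of_chain l hnd hch)
  refine ⟨fun v => (φ v).1, fun x _ => (φ x).2, ?_⟩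
  intro x hx y hy hxy hh
  refine h' x ?_ y ?_ hxy (Fin.ext hh)
  · rw [List.mem_toFinset]; exact hx
  · rw [List.mem_toFinset]; exact hy

theorem G5_allPath : AllPath G5 3 := allPath_of_lin G5_col

end Run7.h925
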