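import Mathlib

set_option autoImplicit false

/-!
Hub graphs. A hub graph has a set `H` of pairwise non adjacent hubs and, for each virtual edge
`e : E`, a copy of a graph `G`; the vertex `v` of the copy `e` is joined to the single hub
`att e v`. A set of vertices covered by a few paths is recorded by positions.
-/

namespace Run7.h925

open Classical

/-- `Lin G s U pos`: reading the vertices of `U` in the order given by `pos`, at most `s` of them
are not followed, at the next position, by an adjacent vertex of `U`. So `U` is the vertex set of a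
union of at most `s` disjoint paths. -/
def Lin {V : Type*} (G : SimpleGraph V) (s : ℕ) (U : Finset V) (pos : V → ℕ) : Prop :=
  Set.InjOn pos (U : Set V) ∧
    (U.filter (fun u => ¬ ∃ w ∈ U, pos w = pos u + 1 ∧ G.Adj u w)).card ≤ s

section

variable {H E V : Type*}

/-- The hub graph. -/
def hubGraph (att : E → V → H) (G : SimpleGraph V) : SimpleGraph (H ⊕ (E × V)) where
  Adj x y := match x, y with
    | .inl _, .inl _ => False
    | .inl h, .inr p => h = att p.1 p.2
    | .inr p, .inl h => h = att p.1 p.2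
    | .inr p, .inr p' => p.1 = p'.1 ∧ G.Adj p.2 p'.2
  symm := ⟨by
    rintro (a | a) (b | b) h
    · exact h
    · exact h
    · exact h
    · exact ⟨h.1.symm, h.2.symm⟩⟩
  loopless := ⟨by
    rintro (a | a) h
    · exact h
    · exact G.irrefl h.2⟩

/-- The vertices of the copy `e` that lie in `U`. -/
noncomputable def fib (U : Finset (H ⊕ (E × V))) (e : E) : Finset V :=
  U.preimage (fun v => Sum.inr (e, v))
    (Function.Injective.injOn (fun a b (h : (Sum.inr (e, a) : H ⊕ (E × V)) = Sum.inr (e, b)) => by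
      simpa using h))

theorem mem_fib {U : Finset (H ⊕ (E × V))} {e : E} {v : V} :
    v ∈ fib U e ↔ Sum.inr (e, v) ∈ U := by
  unfold fib
  rw [Finset.mem_preimage]

variable {att : E → V → H} {G : SimpleGraph V} {src dst : E → H}

theorem lin_fib (hatt : ∀ e v, att e v = src e ∨ att e v = dst e) {s : ℕ}
    {U : Finset (H ⊕ (E × V))} {pos : H ⊕ (E × V) → ℕ} (h : Lin (hubGraph att G) s U pos) (e : E) :
    Lin G (s + 2) (fib U e) (fun v => pos (Sum.inr (e, v))) := by
  obtain ⟨hinj, hcard⟩ := h
  refine ⟨?_, ?_⟩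
  · intro a ha b hb hab
    have ha' := mem_fib.mp (Finset.mem_coe.mp ha)
    have hb' := mem_fib.mp (Finset.mem_coe.mp hb)
    have := hinj (Finset.mem_coe.mpr ha') (Finset.mem_coe.mpr hb') hab
    simpa using this
  · set B := U.filter (fun u => ¬ ∃ w ∈ U, pos w = pos u + 1 ∧ (hubGraph att G).Adj u w) with hB
    set Be := (fib U e).filter (fun u => ¬ ∃ w ∈ fib U e,
      pos (Sum.inr (e, w)) = pos (Sum.inr (e, u)) + 1 ∧ G.Adj u w) with hBe
    -- the map sending a break of the fibre to a break of `U` or to the hub that follows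
    let g : V → H ⊕ (E × V) := fun u =>
      if hu : ∃ w ∈ U, pos w = pos (Sum.inr (e, u)) + 1 ∧ (hubGraph att G).Adj (Sum.inr (e, u)) w
      then hu.choose else Sum.inr (e, u)
    have key : ∀ u ∈ Be, (g u = Sum.inr (e, u) ∧ Sum.inr (e, u) ∈ B) ∨
        ((g u = Sum.inl (src e) ∨ g u = Sum.inl (dst e)) ∧ g u ∈ U ∧
          pos (g u) = pos (Sum.inr (e, u)) + 1) := by
      intro u hu
      rw [hBe, Finset.mem_filter] at hu
      obtain ⟨huU, hun⟩ := hu
      by_cases hex : ∃ w ∈ U, pos w = pos (Sum.inr (e, u)) + 1 ∧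
          (hubGraph att G).Adj (Sum.inr (e, u)) w
      · right
        have hg : g u = hex.choose := by simp only [g]; rw [dif_pos hex]
        obtain ⟨h1, h2, h3⟩ := hex.choose_spec
        rw [hg]
        refine ⟨?_, h1, h2⟩
        rcases hw : hex.choose with z | ⟨e', v'⟩
        · rw [hw] at h3
          have : z = att e u := h3
          rcases hatt e u with h4 | h4
          · left; rw [this, h4]
          · right; rw [this, h4]
        · exfalso
          rw [hw] at h1 h2 h3
          have h5 : e = e' := h3.1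
          subst h5
          exact hun ⟨v', mem_fib.mpr h1, h2, h3.2⟩
      · left
        refine ⟨by simp only [g]; rw [dif_neg hex], ?_⟩
        rw [hB, Finset.mem_filter]
        exact ⟨mem_fib.mp huU, hex⟩
    have hmaps : ∀ u ∈ Be, g u ∈ B ∪ {Sum.inl (src e), Sum.inl (dst e)} := by
      intro u hu
      rcases key u hu with ⟨h1, h2⟩ | ⟨h1 | h1, _⟩
      · rw [h1]; exact Finset.mem_union_left _ h2
      · rw [h1]; simp
      · rw [h1]; simp
    have hginj : Set.InjOn g (Be : Set V) := by
      intro a ha b hb hab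
      rcases key a ha with ⟨h1, _⟩ | ⟨h1, h1', h1''⟩ <;> rcases key b hb with ⟨h2, _⟩ | ⟨h2, h2', h2''⟩
      · rw [h1, h2] at hab
        simpa using hab
      · exfalso
        rw [h1] at hab
        rcases h2 with h2 | h2 <;> rw [h2] at hab <;> simp at hab
      · exfalso
        rw [h2] at hab
        rcases h1 with h1 | h1 <;> rw [h1] at hab <;> simp at hab
      · rw [hab, h2''] at h1''
        have ha' : (Sum.inr (e, a) : H ⊕ (E × V)) ∈ U :=
          mem_fib.mp (Finset.mem_filter.mp (Finset.mem_coe.mp ha)).1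
        have hb' : (Sum.inr (e, b) : H ⊕ (E × V)) ∈ U :=
          mem_fib.mp (Finset.mem_filter.mp (Finset.mem_coe.mp hb)).1
        have h5 : pos (Sum.inr (e, a)) = pos (Sum.inr (e, b)) := by omega
        have := hinj (Finset.mem_coe.mpr ha') (Finset.mem_coe.mpr hb') h5
        simpa using this
    calc Be.card ≤ (B ∪ {Sum.inl (src e), Sum.inl (dst e)}).card :=
          Finset.card_le_card_of_injOn g hmaps hginj
      _ ≤ B.card + ({Sum.inl (src e), Sum.inl (dst e)} : Finset (H ⊕ (E × V))).card :=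
          Finset.card_union_le _ _
      _ ≤ s + 2 := by
          have : ({Sum.inl (src e), Sum.inl (dst e)} : Finset (H ⊕ (E × V))).card ≤ 2 :=
            Finset.card_le_two
          omega

theorem visited_card (hatt : ∀ e v, att e v = src e ∨ att e v = dst e) {s : ℕ}
    {U : Finset (H ⊕ (E × V))} {pos : H ⊕ (E × V) → ℕ} (h : Lin (hubGraph att G) s U pos)
    (E' : Finset E) (W : Finset H) (hE : ∀ e ∈ E', (fib U e).Nonempty ∧ src e ∈ W ∧ dst e ∈ W) :
    E'.card ≤ W.card + s := by
  obtain ⟨hinj, hcard⟩ := h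
  set B := U.filter (fun u => ¬ ∃ w ∈ U, pos w = pos u + 1 ∧ (hubGraph att G).Adj u w) with hB
  -- the last vertex of the fibre
  have hlast : ∀ e ∈ E', ∃ v ∈ fib U e, ∀ w ∈ fib U e,
      pos (Sum.inr (e, w)) ≤ pos (Sum.inr (e, v)) := by
    intro e he
    obtain ⟨v, hv, hv'⟩ := Finset.exists_max_image (fib U e) (fun v => pos (Sum.inr (e, v)))
      (hE e he).1
    exact ⟨v, hv, hv'⟩
  have hg : ∀ e ∈ E', ∃ x : H ⊕ (E × V), ∃ v, Sum.inr (e, v) ∈ U ∧
      ((x = Sum.inr (e, v) ∧ x ∈ B) ∨
        (∃ z ∈ W, x = Sum.inl z ∧ x ∈ U ∧ pos x = pos (Sum.inr (e, v)) + 1)) := by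
    intro e he
    obtain ⟨v, hv, hmax⟩ := hlast e he
    by_cases hex : ∃ w ∈ U, pos w = pos (Sum.inr (e, v)) + 1 ∧
          (hubGraph att G).Adj (Sum.inr (e, v)) w
    · obtain ⟨w, hw1, hw2, hw3⟩ := hex
      refine ⟨w, v, mem_fib.mp hv, Or.inr ?_⟩
      rcases w with z | ⟨e', v'⟩
      · have hz : z = att e v := hw3
        refine ⟨z, ?_, rfl, hw1, hw2⟩
        rcases hatt e v with h4 | h4
        · rw [hz, h4]; exact (hE e he).2.1
        · rw [hz, h4]; exact (hE e he).2.2
      · exfalso
        have h5 : e = e' := hw3.1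
        subst h5
        have := hmax v' (mem_fib.mpr hw1)
        omega
    · refine ⟨Sum.inr (e, v), v, mem_fib.mp hv, Or.inl ⟨rfl, ?_⟩⟩
      rw [hB, Finset.mem_filter]
      exact ⟨mem_fib.mp hv, hex⟩
  rcases E'.eq_empty_or_nonempty with hemp | ⟨e0, he0⟩
  · rw [hemp]; simp
  have : Nonempty (H ⊕ (E × V)) := ⟨(hg e0 he0).choose⟩
  choose! g hg using hg
  have hmaps : ∀ e ∈ E', g e ∈ B ∪ W.map ⟨Sum.inl, Sum.inl_injective⟩ := by
    intro e he
    obtain ⟨v, _, ⟨h1, h2⟩ | ⟨z, hz, h1, _⟩⟩ := hg e he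
    · exact Finset.mem_union_left _ h2
    · rw [h1]
      apply Finset.mem_union_right
      simp [hz]
  have hginj : Set.InjOn g (E' : Set E) := by
    intro a ha b hb hab
    obtain ⟨v, hv, ⟨h1, _⟩ | ⟨z, hz, h1, h1', h1''⟩⟩ := hg a ha <;>
    obtain ⟨w, hw, ⟨h2, _⟩ | ⟨y, hy, h2, h2', h2''⟩⟩ := hg b hb
    · rw [h1, h2] at hab
      simp at hab
      exact hab.1
    · exfalso
      rw [h1, h2] at hab
      simp at hab
    · exfalso
      rw [h1, h2] at hab
      simp at hab
    · rw [hab, h2''] at h1''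
      have h5 : pos (Sum.inr (a, v)) = pos (Sum.inr (b, w)) := by omega
      have := hinj (Finset.mem_coe.mpr hv) (Finset.mem_coe.mpr hw) h5
      simp at this
      exact this.1
  calc E'.card ≤ (B ∪ W.map ⟨Sum.inl, Sum.inl_injective⟩).card :=
        Finset.card_le_card_of_injOn g hmaps hginj
    _ ≤ B.card + (W.map ⟨Sum.inl, Sum.inl_injective⟩).card := Finset.card_union_le _ _
    _ ≤ W.card + s := by rw [Finset.card_map]; omega

end

end Run7.h925
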