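import Pool.Agent.Run7.h925.Tower
import Pool.Agent.Run7.h925.Basic

set_option autoImplicit false

/-!
The numerical part of the lower bound.
-/

namespace Run7.h925

open Classical

/-- A path is a linear forest with one component. -/
theorem lin_of_chain {V : Type*} {G : SimpleGraph V} (l : List V) (hnd : l.Nodup)
    (hch : l.IsChain G.Adj) : Lin G 1 l.toFinset (fun v => l.idxOf v) := by
  refine ⟨?_, ?_⟩
  · intro a ha b hb hab
    rw [Finset.mem_coe, List.mem_toFinset] at ha hb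
    exact (List.idxOf_inj ha).mp hab
  · rw [Finset.card_le_one]
    intro a ha b hb
    rw [Finset.mem_filter, List.mem_toFinset] at ha hb
    have key : ∀ u ∈ l, (¬ ∃ w ∈ l.toFinset, l.idxOf w = l.idxOf u + 1 ∧ G.Adj u w) →
        l.idxOf u + 1 = l.length := by
      intro u hu hn
      have h1 := List.idxOf_lt_length_of_mem hu
      by_contra hne
      have h2 : l.idxOf u + 1 < l.length := by omega
      apply hn
      refine ⟨l[l.idxOf u + 1], ?_, ?_, ?_⟩
      · rw [List.mem_toFinset]; exact List.getElem_mem _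
      · exact hnd.idxOf_getElem _ _
      · have := List.isChain_iff_getElem.mp hch (l.idxOf u) h2
        rwa [List.getElem_idxOf h1] at this
    have h1 := key a ha.1 ha.2
    have h2 := key b hb.1 hb.2
    exact (List.idxOf_inj ha.1).mp (by omega)

/-- From a block to a graph. -/
theorem graph_of_blk {t c n : ℕ} (ht : 2 ≤ t) (hn : 4 * n ≤ 2 ^ t) (hb : Blk (2 * t) c n) :
    ∃ (V : Type) (_ : Finite V) (G : SimpleGraph V), (∀ m < n, ¬ G.Colorable m) ∧
      AllPath G c := by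
  obtain ⟨σ, hσ, hσ'⟩ := hb 0
  have hwin : Win (2 * t) σ (fun _ => Finset.range c) := by
    have := hσ' [] (Finset.range c) (fun _ => Finset.range c) rfl (by simp)
      (fun i _ _ => Finset.Subset.refl _) (fun i hi => absurd hi (by omega)) (Win.nil _)
    simpa using this
  obtain ⟨T⟩ := tower_exists (q := 2 * t) (S := 2 * n)
    (fun j => exists_VG j (2 * n) t ht (by omega)) σ
  refine ⟨T.V, T.finV, T.G, ?_, ?_⟩
  · intro m hm
    exact T.not_col m (by omega)
  · intro l hnd hch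
    obtain ⟨φ, h1, h2⟩ := T.col 1 (fun _ => Finset.range c) (by omega) hwin l.toFinset
      (fun v => l.idxOf v) (lin_of_chain l hnd hch)
    refine ⟨φ, ?_, ?_⟩
    · intro x hx
      simpa using h1 x (List.mem_toFinset.mpr hx)
    · intro x hx y hy hxy
      exact h2 x (List.mem_toFinset.mpr hx) y (List.mem_toFinset.mpr hy) hxy

theorem AllPath.mono' {V : Type*} {G : SimpleGraph V} {c c' : ℕ} (h : AllPath G c)
    (hc : c ≤ c') : AllPath G c' := by
  intro l h1 h2
  exact (h l h1 h2).mono (Set.Subset.refl _) hc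

theorem aux_pow (L : ℕ) (hL : 7 ≤ L) : 9 * (L + 2) ≤ 2 ^ L := by
  induction L, hL using Nat.le_induction with
  | base => norm_num
  | succ n hn ih => rw [pow_succ]; omega

theorem aux_pow2 (L : ℕ) (hL : 7 ≤ L) : 4 * L + 8 ≤ 2 ^ L := by
  induction L, hL using Nat.le_induction with
  | base => norm_num
  | succ n hn ih => rw [pow_succ]; omega

/-- Natural number form of the lower bound. -/
theorem lower_nat (k : ℕ) (hk : 128 ≤ k) :
    ∃ (n j : ℕ) (V : Type) (_ : Finite V) (G : SimpleGraph V), (∀ m < n, ¬ G.Colorable m) ∧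
      AllPath G (k - 1) ∧ 2 ^ j < 18 * (Nat.log 2 k + 2) ∧
      k * (Nat.log 2 k + 1) ≤ 2 * n + k * j := by
  set L := Nat.log 2 k with hL
  have hk0 : k ≠ 0 := by omega
  have hLlow : 2 ^ L ≤ k := Nat.pow_log_le_self 2 hk0
  have hLup : k < 2 ^ (L + 1) := Nat.lt_pow_succ_log_self (by norm_num) k
  have hL7 : 7 ≤ L := by
    by_contra h
    have h1 : L + 1 ≤ 7 := by omega
    have h2 : 2 ^ (L + 1) ≤ 2 ^ 7 := Nat.pow_le_pow_right (by norm_num) h1
    have h3 : (2 : ℕ) ^ 7 = 128 := by norm_num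
    rw [h3] at h2
    exact absurd (lt_of_lt_of_le hLup h2) (not_lt.mpr hk)
  set j := Nat.clog 2 (9 * (L + 2)) with hj
  have hjup : 9 * (L + 2) ≤ 2 ^ j := Nat.le_pow_clog (by norm_num) _
  have hjlow : 2 ^ j < 18 * (L + 2) := by
    have h1 := Nat.pow_pred_clog_lt_self (b := 2) (by norm_num)
      (show 1 < 9 * (L + 2) by omega)
    rw [← hj, Nat.pred_eq_sub_one] at h1
    have hj1 : 1 ≤ j := by
      by_contra h
      have : j = 0 := by omega
      rw [this] at hjup
      omega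
    have h2 : 2 ^ j = 2 * 2 ^ (j - 1) := by
      rw [← pow_succ', Nat.sub_add_cancel hj1]
    omega
  have hjL : j ≤ L := by
    rw [hj]
    exact Nat.clog_le_of_le_pow (aux_pow L hL7)
  set t := 2 * L + 4 with ht
  set m := L - j with hm
  have hmL : m + j = L := by omega
  set y := (k - 1 + (2 * t - 2)) / 2 ^ m with hy
  have h2m : 0 < 2 ^ m := by positivity
  have hyup : 2 ^ m * y ≤ k - 1 + (2 * t - 2) := Nat.mul_div_le _ _
  have hylow : k - 1 + (2 * t - 2) < 2 ^ m * y + 2 ^ m := by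
    have h9 := Nat.lt_div_mul_add (a := k - 1 + (2 * t - 2)) h2m
    rw [← hy] at h9
    linarith [Nat.mul_comm y (2 ^ m)]
  have hpow : 2 ^ m * 2 ^ j = 2 ^ L := by rw [← pow_add, hmL]
  -- `y` is large enough
  have hyq : 2 * t - 2 ≤ y := by
    by_contra hlt
    rw [not_le] at hlt
    have h1 : 2 ^ m * y + 2 ^ m ≤ 2 ^ m * (2 * t - 2) := by
      have : y + 1 ≤ 2 * t - 2 := hlt
      calc 2 ^ m * y + 2 ^ m = 2 ^ m * (y + 1) := by ring
        _ ≤ 2 ^ m * (2 * t - 2) := Nat.mul_le_mul_left _ this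
    have h2 : 2 ^ m * (2 * t - 2) ≤ 2 ^ m * 2 ^ j := Nat.mul_le_mul_left _ (by omega)
    omega
  obtain ⟨c, n, hc, hn, hb⟩ := blk_pow (2 * t) y (by omega) hyq m
  have hck : c ≤ k - 1 := by omega
  -- the number of levels is not too large
  have hn4 : 4 * n ≤ 2 ^ t := by
    have h1 : 2 * n ≤ (m + 2) * (2 ^ m * y) := by
      rw [← mul_assoc]; omega
    have h2 : (m + 2) * (2 ^ m * y) ≤ (L + 2) * (k - 1 + (2 * t - 2)) :=
      Nat.mul_le_mul (by omega) hyup
    have h3 : (L + 2) * (k - 1 + (2 * t - 2)) ≤ 2 ^ L * (4 * 2 ^ L) := by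
      have h4 := aux_pow L hL7
      have h5 := aux_pow2 L hL7
      have h6 : 2 ^ (L + 1) = 2 * 2 ^ L := by rw [pow_succ]; ring
      exact Nat.mul_le_mul (by omega) (by omega)
    have h7 : 2 ^ t = 16 * (2 ^ L * 2 ^ L) := by
      rw [ht, pow_add, two_mul, pow_add]; ring
    have h8 : 2 ^ L * (4 * 2 ^ L) = 4 * (2 ^ L * 2 ^ L) := by ring
    omega
  obtain ⟨V, hV, G, hG1, hG2⟩ := graph_of_blk (by omega) hn4 hb
  refine ⟨n, j, V, hV, G, hG1, hG2.mono' hck, hjlow, ?_⟩
  -- 2 n ≥ (m + 2) (k - 2^m) - 2^(m+1) (q - 2)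
  have e1 : (m + 2) * 2 ^ m * y = (m + 2) * (2 ^ m * y) := by ring
  have e2 : (m + 2) * k + 0 ≤ (m + 2) * (2 ^ m * y + 2 ^ m) :=
    by
      rw [add_zero]
      exact Nat.mul_le_mul_left _ (by omega)
  have e3 : 2 ^ (m + 1) * (2 * t - 2) = 2 ^ m * (2 * (2 * t - 2)) := by
    rw [pow_succ]; ring
  have e4 : (m + 2) * 2 ^ m + 2 ^ m * (2 * (2 * t - 2)) ≤ 2 ^ L := by
    calc (m + 2) * 2 ^ m + 2 ^ m * (2 * (2 * t - 2))
        = 2 ^ m * (m + 2 + 2 * (2 * t - 2)) := by ring
      _ ≤ 2 ^ m * 2 ^ j := Nat.mul_le_mul_left _ (by omega)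
      _ = 2 ^ L := hpow
  have e5 : k * (L + 1) + k = (m + 2) * k + k * j := by
    rw [← hmL]; ring
  have e6 : (m + 2) * (2 ^ m * y + 2 ^ m) = (m + 2) * (2 ^ m * y) + (m + 2) * 2 ^ m := by ring
  rw [e1] at hn
  rw [e3] at hn
  omega

end Run7.h925
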