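import Pool.Agent.Run7.h925.Branch

set_option autoImplicit false

/-!
The two structure theorems, first with set based colourability.
-/

namespace Run7.h925

open SimpleGraph

variable {V : Type*} {G : SimpleGraph V}

theorem not_col_of_le {S : Set V} {t : ℕ} (ht : 1 ≤ t)
    (h : (t : ℕ∞) ≤ (G.induce S).chromaticNumber) : ¬ Col G S (t - 1) := by
  intro hc
  rw [col_iff] at hc
  have h1 := h.trans hc.chromaticNumber_le
  have h2 : t ≤ t - 1 := by exact_mod_cast h1
  omega

theorem le_of_not_col {S : Set V} {t : ℕ}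
    (h : ¬ Col G S (t - 1)) : (t : ℕ∞) ≤ (G.induce S).chromaticNumber := by
  rw [le_chromaticNumber_iff_colorable]
  intro n hn
  by_contra hlt
  have hlt' : n < t := by
    rw [not_le] at hlt
    exact_mod_cast hlt
  apply h
  rw [col_iff]
  exact hn.mono (by omega)

theorem col_univ_iff {n : ℕ} : Col G Set.univ n ↔ G.Colorable n := by
  constructor
  · rintro ⟨f, hf, hf'⟩
    rw [colorable_iff_exists_bdd_nat_coloring]
    exact ⟨Coloring.mk f (fun {v w} hvw => hf' v trivial w trivial hvw), fun v => hf v trivial⟩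
  · intro h
    rw [colorable_iff_exists_bdd_nat_coloring] at h
    obtain ⟨C, hC⟩ := h
    exact ⟨C, fun x _ => hC x, fun x _ y _ hxy => C.valid hxy⟩

/-- A graph which is not `n`-colourable has a component which is not `n`-colourable. -/
theorem exists_state [Finite V] {n : ℕ} (h : ¬ Col G Set.univ n) :
    ∃ K : Set V, State G [] K ∧ ¬ Col G K n := by
  obtain ⟨T, _, hT, hTn⟩ := exists_critical h
  obtain ⟨K, hTK, hK⟩ := exists_comp (U := {z : V | z ∉ ([] : List V)}) hT (by intro z _; simp)
  refine ⟨K, ⟨List.nodup_nil, List.IsChain.nil, hK, by intro w hw; simp at hw⟩, ?_⟩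
  exact fun h => hTn (h.mono hTK le_rfl)

theorem not_col_univ {N t : ℕ} (ht : 1 ≤ t)
    (hχ : ((N + t : ℕ) : ℕ∞) ≤ G.chromaticNumber) : ¬ Col G Set.univ (N + (t - 1)) := by
  intro hc
  rw [col_univ_iff] at hc
  have h1 := hχ.trans hc.chromaticNumber_le
  have h2 : N + t ≤ N + (t - 1) := by exact_mod_cast h1
  omega

end Run7.h925
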