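import Mathlib

set_option autoImplicit false

/-!
The palette game behind the lower bound. A scheme is a list of role functions, the head being the
top level; the level of the head is the length of the tail. `Win q ρ P` says that the colourer
wins on the scheme `ρ` when the vertices of level `i` may use the palette `P i`.
-/

namespace Run7.h925

/-- The colourer wins. At the top level he may either give all hubs one colour `b`, which is then
lost for all lower levels, or choose at least `q` colours for the hubs, and must be able to go on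
whatever two different colours `b`, `d` the two hubs of a gadget get; a level `i` loses `d` if its
role is `true` and `b` otherwise. -/
inductive Win (q : ℕ) : List (ℕ → Bool) → (ℕ → Finset ℕ) → Prop
  | nil (P : ℕ → Finset ℕ) : Win q [] P
  | mono (r : ℕ → Bool) (ρ : List (ℕ → Bool)) (P : ℕ → Finset ℕ) (b : ℕ) (hb : b ∈ P ρ.length)
      (h : Win q ρ (fun i => (P i).erase b)) : Win q (r :: ρ) P
  | pair (r : ℕ → Bool) (ρ : List (ℕ → Bool)) (P : ℕ → Finset ℕ) (T : Finset ℕ)
      (hT : T ⊆ P ρ.length) (hq : q ≤ T.card)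
      (h : ∀ b ∈ T, ∀ d ∈ T, b ≠ d →
        Win q ρ (fun i => (P i).erase (if r i then d else b))) : Win q (r :: ρ) P

theorem Win.weaken {q : ℕ} {ρ : List (ℕ → Bool)} {P : ℕ → Finset ℕ} (h : Win q ρ P) :
    ∀ P' : ℕ → Finset ℕ, (∀ i < ρ.length, P i ⊆ P' i) → Win q ρ P' := by
  induction h with
  | nil P => exact fun P' _ => Win.nil P'
  | mono r ρ P b hb h ih =>
    intro P' hP
    refine Win.mono r ρ P' b (hP _ (by simp) hb) (ih _ ?_)
    intro i hi
    exact Finset.erase_subset_erase _ (hP i (by simp; omega))
  | pair r ρ P T hT hq h ih =>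
    intro P' hP
    refine Win.pair r ρ P' T (hT.trans (hP _ (by simp))) hq ?_
    intro b hb d hd hbd
    refine ih b hb d hd hbd _ ?_
    intro i hi
    exact Finset.erase_subset_erase _ (hP i (by simp; omega))

/-- `Blk q c n`: a block of `n` levels can be played with `c` colours that are of no use below the
block. -/
def Blk (q c n : ℕ) : Prop :=
  ∀ a : ℕ, ∃ σ : List (ℕ → Bool), σ.length = n ∧
    ∀ (ρ : List (ℕ → Bool)) (C : Finset ℕ) (P : ℕ → Finset ℕ), ρ.length = a → c ≤ C.card →
      (∀ i, a ≤ i → i < a + n → C ⊆ P i) → (∀ i < a, Disjoint (P i) C) → Win q ρ P →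
      Win q (σ ++ ρ) P

theorem blk_zero (q : ℕ) : Blk q 0 0 := by
  intro a
  exact ⟨[], rfl, fun ρ C P _ _ _ _ h => h⟩

theorem Blk.succ {q c n : ℕ} (h : Blk q c n) : Blk q (c + 1) (n + 1) := by
  intro a
  obtain ⟨σ, hσ, hσ'⟩ := h a
  refine ⟨(fun _ => false) :: σ, by simp [hσ], ?_⟩
  intro ρ C P hρ hC hP hlow hW
  have hne : C.Nonempty := by
    rw [← Finset.card_pos]; omega
  obtain ⟨b, hb⟩ := hne
  have hlen : (σ ++ ρ).length = a + n := by simp [hσ, hρ]; omega
  rw [List.cons_append]
  refine Win.mono _ _ _ b ?_ ?_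
  · rw [hlen]
    exact hP (a + n) (by omega) (by omega) hb
  · refine hσ' ρ (C.erase b) _ hρ ?_ ?_ ?_ ?_
    · rw [Finset.card_erase_of_mem hb]; omega
    · intro i h1 h2
      exact Finset.erase_subset_erase _ (hP i h1 (by omega))
    · intro i hi
      exact Finset.disjoint_of_subset_left (Finset.erase_subset _ _)
        (Finset.disjoint_of_subset_right (Finset.erase_subset _ _) (hlow i hi))
    · refine hW.weaken _ ?_
      intro i hi x hx
      rw [Finset.mem_erase]
      refine ⟨?_, hx⟩
      rintro rfl
      exact Finset.disjoint_left.mp (hlow i (by omega)) hx hb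

theorem Blk.add {q c n : ℕ} (h : Blk q c n) (x : ℕ) : Blk q (c + x) (n + x) := by
  induction x with
  | zero => exact h
  | succ x ih => exact ih.succ

theorem blk_self (q c : ℕ) : Blk q c c := by
  have := (blk_zero q).add c
  simpa using this

/-- The first phase of a block, `r'` levels being left. -/
theorem phase {q r c' nM nB a : ℕ} {σM σB ρ : List (ℕ → Bool)}
    (hρ : ρ.length = a) (hσB : σB.length = nB) (hσM : σM.length = nM)
    (hB : ∀ (C : Finset ℕ) (P : ℕ → Finset ℕ), c' ≤ C.card →
      (∀ i, a ≤ i → i < a + nB → C ⊆ P i) → (∀ i < a, Disjoint (P i) C) → Win q ρ P →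
      Win q (σB ++ ρ) P)
    (hM : ∀ (C : Finset ℕ) (P : ℕ → Finset ℕ), r ≤ C.card →
      (∀ i, a + nB ≤ i → i < a + nB + nM → C ⊆ P i) → (∀ i < a + nB, Disjoint (P i) C) →
      Win q (σB ++ ρ) P → Win q (σM ++ (σB ++ ρ)) P) :
    ∀ (r' : ℕ) (C Bs D : Finset ℕ) (P : ℕ → Finset ℕ),
      (0 < r' → 2 * r' + q ≤ C.card + 2) → r ≤ Bs.card + r' → c' + r' ≤ D.card → C ⊆ D →
      Disjoint Bs C →
      (∀ i, a + nB ≤ i → i < a + nB + nM + r' → C ⊆ P i) →
      (∀ i, a + nB ≤ i → i < a + nB + nM → Bs ⊆ P i) →
      (∀ i, a ≤ i → i < a + nB → D ⊆ P i ∧ Disjoint (P i) Bs) →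
      (∀ i < a, Disjoint (P i) (Bs ∪ D)) → Win q ρ P →
      Win q (List.replicate r' (fun i => decide (a + nB ≤ i)) ++ (σM ++ (σB ++ ρ))) P := by
  intro r'
  induction r' with
  | zero =>
    intro C Bs D P _ hBs hD hCD hBC h1 h2 h3 h4 hW
    simp only [List.replicate_zero, List.nil_append]
    refine hM Bs P (by omega) h2 ?_ ?_
    · intro i hi
      by_cases hia : i < a
      · exact Finset.disjoint_of_subset_right Finset.subset_union_left (h4 i hia)
      · exact (h3 i (by omega) hi).2
    · refine hB D P (by omega) (fun i hi hi' => (h3 i hi hi').1) ?_ hW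
      intro i hi
      exact Finset.disjoint_of_subset_right Finset.subset_union_right (h4 i hi)
  | succ r' ih =>
    intro C Bs D P hcard hBs hD hCD hBC h1 h2 h3 h4 hW
    have hc := hcard (by omega)
    have hlen : (List.replicate r' (fun i => decide (a + nB ≤ i)) ++ (σM ++ (σB ++ ρ))).length
        = a + nB + nM + r' := by
      simp [hρ, hσB, hσM]; omega
    rw [List.replicate_succ, List.cons_append]
    refine Win.pair _ _ _ C ?_ (by omega) ?_
    · rw [hlen]
      exact h1 _ (by omega) (by omega)
    · intro b hb d hd hbd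
      have hbB : b ∉ Bs := fun h => Finset.disjoint_left.mp hBC h hb
      have hdB : d ∉ Bs := fun h => Finset.disjoint_left.mp hBC h hd
      refine ih ((C.erase b).erase d) (insert b Bs) (D.erase b) _ ?_ ?_ ?_ ?_ ?_ ?_ ?_ ?_ ?_ ?_
      · intro _
        rw [Finset.card_erase_of_mem (Finset.mem_erase.mpr ⟨hbd.symm, hd⟩),
          Finset.card_erase_of_mem hb]
        omega
      · rw [Finset.card_insert_of_notMem hbB]; omega
      · rw [Finset.card_erase_of_mem (hCD hb)]; omega
      · exact (Finset.erase_subset _ _).trans (Finset.erase_subset_erase _ hCD)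
      · rw [Finset.disjoint_insert_left]
        refine ⟨by simp, ?_⟩
        exact Finset.disjoint_of_subset_right ((Finset.erase_subset _ _).trans
          (Finset.erase_subset _ _)) hBC
      · intro i hi hi'
        simp only [hi, decide_true, if_true]
        intro x hx
        rw [Finset.mem_erase] at hx
        rw [Finset.mem_erase]
        exact ⟨hx.1, h1 i hi (by omega) (Finset.mem_erase.mp hx.2).2⟩
      · intro i hi hi'
        simp only [hi, decide_true, if_true]
        intro x hx
        rw [Finset.mem_erase]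
        rw [Finset.mem_insert] at hx
        rcases hx with rfl | hx
        · exact ⟨hbd, h1 i hi (by omega) hb⟩
        · exact ⟨fun h => hdB (h ▸ hx), h2 i hi hi' hx⟩
      · intro i hi hi'
        have hni : ¬ a + nB ≤ i := by omega
        simp only [hni, decide_false, Bool.false_eq_true, if_false]
        refine ⟨Finset.erase_subset_erase _ (h3 i hi hi').1, ?_⟩
        rw [Finset.disjoint_insert_right]
        refine ⟨by simp, ?_⟩
        exact Finset.disjoint_of_subset_left (Finset.erase_subset _ _) (h3 i hi hi').2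
      · intro i hi
        have hni : ¬ a + nB ≤ i := by omega
        simp only [hni, decide_false, Bool.false_eq_true, if_false]
        refine Finset.disjoint_of_subset_left (Finset.erase_subset _ _) ?_
        refine Finset.disjoint_of_subset_right ?_ (h4 i hi)
        intro x hx
        rw [Finset.mem_union, Finset.mem_insert] at hx
        rw [Finset.mem_union]
        rcases hx with (rfl | hx) | hx
        · exact Or.inr (hCD hb)
        · exact Or.inl hx
        · exact Or.inr (Finset.mem_erase.mp hx).2
      · refine hW.weaken _ ?_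
        intro i hi x hx
        have hni : ¬ a + nB ≤ i := by omega
        simp only [hni, decide_false, Bool.false_eq_true, if_false]
        rw [Finset.mem_erase]
        refine ⟨?_, hx⟩
        rintro rfl
        exact Finset.disjoint_left.mp (h4 i (by omega)) hx
          (Finset.mem_union_right _ (hCD hb))

/-- Composition of blocks. -/
theorem Blk.node {q r c c' nM nB : ℕ} (hM : Blk q r nM) (hB : Blk q c' nB)
    (h1 : 2 * r + q ≤ c + 2) (h2 : c' + r ≤ c) : Blk q c (r + (nM + nB)) := by
  intro a
  obtain ⟨σB, hσB, hσB'⟩ := hB a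
  obtain ⟨σM, hσM, hσM'⟩ := hM (a + nB)
  refine ⟨List.replicate r (fun i => decide (a + nB ≤ i)) ++ (σM ++ σB), ?_, ?_⟩
  · simp [hσB, hσM]
  · intro ρ C P hρ hC hP hlow hW
    have hh := phase (q := q) (r := r) (c' := c') (nM := nM) (nB := nB) (a := a)
      (σM := σM) (σB := σB) (ρ := ρ) hρ hσB hσM
      (fun C P h1 h2 h3 h4 => hσB' ρ C P hρ h1 h2 h3 h4)
      (fun C P h1 h2 h3 h4 => hσM' (σB ++ ρ) C P (by simp [hσB, hρ]; omega) h1 h2 h3 h4)
      r C ∅ C P (fun _ => by omega) (by simp) (by omega) (Finset.Subset.refl _)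
      (Finset.disjoint_empty_left _) (fun i hi hi' => hP i (by omega) (by omega))
      (fun i _ _ => Finset.empty_subset _)
      (fun i hi hi' => ⟨hP i hi (by omega), Finset.disjoint_empty_right _⟩)
      (fun i hi => by simpa using hlow i hi) hW
    simpa [List.append_assoc] using hh

/-- The numbers of colours and levels reached. -/
theorem blk_pow (q y : ℕ) (hq : 2 ≤ q) (hy : q - 2 ≤ y) (m : ℕ) :
    ∃ c n, c + (q - 2) = 2 ^ m * y ∧ 2 * n + 2 ^ (m + 1) * (q - 2) = (m + 2) * 2 ^ m * y ∧
      Blk q c n := by
  induction m with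
  | zero =>
    refine ⟨y - (q - 2), y - (q - 2), by simp; omega, by simp; omega, blk_self _ _⟩
  | succ m ih =>
    obtain ⟨c, n, hc, hn, hb⟩ := ih
    refine ⟨2 * c + (q - 2), c + (n + (n + (q - 2))), ?_, ?_, ?_⟩
    · rw [pow_succ]; nlinarith
    · have : (2:ℕ) ^ (m + 1 + 1) = 2 * 2 ^ (m + 1) := by rw [pow_succ]; ring
      have h2 : (2:ℕ) ^ (m + 1) = 2 * 2 ^ m := by rw [pow_succ]; ring
      rw [this]
      rw [h2] at hn ⊢
      nlinarith
    · have hb' := hb.add (q - 2)
      exact Blk.node hb hb' (by omega) (by omega)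

end Run7.h925
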