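import Pool.Agent.Run7.h925.Hub
import Pool.Agent.Run7.h925.Win
import Pool.Agent.Run7.h925.Shift

set_option autoImplicit false

/-!
The tower of hub graphs that belongs to a scheme.
-/

namespace Run7.h925

open Classical

/-- What is known about the graph built from the scheme `ρ`. -/
structure Tower (q S : ℕ) (ρ : List (ℕ → Bool)) where
  V : Type
  finV : Finite V
  G : SimpleGraph V
  lvl : V → ℕ
  lvl_lt : ∀ v, lvl v < ρ.length
  not_col : ∀ n < ρ.length, ¬ G.Colorable n
  col : ∀ (s : ℕ) (P : ℕ → Finset ℕ), s + 2 * ρ.length ≤ S + 2 → Win q ρ P →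
    ∀ (U : Finset V) (pos : V → ℕ), Lin G s U pos →
      ∃ φ : V → ℕ, (∀ u ∈ U, φ u ∈ P (lvl u)) ∧ ∀ u ∈ U, ∀ v ∈ U, G.Adj u v → φ u ≠ φ v

theorem tower_nil (q S : ℕ) : Nonempty (Tower q S []) := by
  refine ⟨⟨Empty, inferInstance, ⊥, fun v => v.elim, fun v => v.elim, ?_, ?_⟩⟩
  · intro n hn
    simp at hn
  · intro s P _ _ U pos _
    exact ⟨fun v => v.elim, fun u => u.elim, fun u => u.elim⟩

theorem tower_cons {q S : ℕ} (hVG : ∀ j, Nonempty (VG j S q)) (r : ℕ → Bool)
    {ρ : List (ℕ → Bool)} (hT : Nonempty (Tower q S ρ)) : Nonempty (Tower q S (r :: ρ)) := by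
  obtain ⟨T⟩ := hT
  obtain ⟨X⟩ := hVG ρ.length
  have hfV := T.finV
  have hfH := X.finH
  have hfE := X.finE
  let att : X.E → T.V → X.H := fun e v => if r (T.lvl v) then X.dst e else X.src e
  have hatt : ∀ e v, att e v = X.src e ∨ att e v = X.dst e := by
    intro e v
    simp only [att]
    split_ifs
    · exact Or.inr rfl
    · exact Or.inl rfl
  let lvl : X.H ⊕ (X.E × T.V) → ℕ := fun x => match x with
    | .inl _ => ρ.length
    | .inr p => T.lvl p.2
  refine ⟨⟨X.H ⊕ (X.E × T.V), inferInstance, hubGraph att T.G, lvl, ?_, ?_, ?_⟩⟩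
  · rintro (h | ⟨e, v⟩)
    · simp [lvl]
    · have := T.lvl_lt v
      simp only [lvl, List.length_cons]
      omega
  · -- few colours are not enough
    intro n hn ⟨C⟩
    rw [List.length_cons] at hn
    have hle : n ≤ ρ.length := by omega
    let κ : X.H → Fin ρ.length := fun h => Fin.castLE hle (C (Sum.inl h))
    obtain ⟨e, he⟩ := X.mono κ
    have he' : C (Sum.inl (X.src e)) = C (Sum.inl (X.dst e)) := by
      have := congrArg Fin.val he
      simp only [κ, Fin.val_castLE] at this
      exact Fin.ext this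
    have hpos : 0 < n := (Nat.zero_le _).trans_lt (C (Sum.inl (X.src e))).2
    set i := C (Sum.inl (X.src e)) with hi
    have havoid : ∀ v, C (Sum.inr (e, v)) ≠ i := by
      intro v
      have hadj : (hubGraph att T.G).Adj (Sum.inl (att e v)) (Sum.inr (e, v)) := rfl
      have h1 := C.valid hadj
      rcases hatt e v with h | h
      · rw [h] at h1; exact h1.symm
      · rw [h, ← he'] at h1; exact h1.symm
    refine T.not_col (n - 1) (by omega) ?_
    have hcard : Fintype.card {x : Fin n // x ≠ i} = n - 1 := by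
      simp
    have hcol : T.G.Coloring {x : Fin n // x ≠ i} :=
      SimpleGraph.Coloring.mk (fun v => ⟨C (Sum.inr (e, v)), havoid v⟩) (by
        intro a b hab h
        have h2 : (hubGraph att T.G).Adj (Sum.inr (e, a)) (Sum.inr (e, b)) := ⟨rfl, hab⟩
        exact C.valid h2 (Subtype.ext_iff.mp h))
    have := hcol.colorable
    rwa [hcard] at this
  · intro s P hs hW U pos hU
    rw [List.length_cons] at hs
    -- it is enough to colour the hubs
    have main : ∀ κ : X.H → ℕ, (∀ h, κ h ∈ P ρ.length) →
        (∀ e, (fib U e).Nonempty →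
          Win q ρ (fun i => (P i).erase (if r i then κ (X.dst e) else κ (X.src e)))) →
        ∃ φ : X.H ⊕ (X.E × T.V) → ℕ, (∀ u ∈ U, φ u ∈ P (lvl u)) ∧
          ∀ u ∈ U, ∀ v ∈ U, (hubGraph att T.G).Adj u v → φ u ≠ φ v := by
      intro κ hκ hwin
      have hfi : ∀ e, ∃ φ : T.V → ℕ,
          (∀ u ∈ fib U e, φ u ∈ P (T.lvl u) ∧ φ u ≠ κ (att e u)) ∧
          ∀ u ∈ fib U e, ∀ v ∈ fib U e, T.G.Adj u v → φ u ≠ φ v := by
        intro e
        by_cases hne : (fib U e).Nonempty
        · obtain ⟨φ, h1, h2⟩ := T.col (s + 2) _ (by omega) (hwin e hne) (fib U e)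
            (fun v => pos (Sum.inr (e, v))) (lin_fib hatt hU e)
          refine ⟨φ, ?_, h2⟩
          intro u hu
          have := Finset.mem_erase.mp (h1 u hu)
          refine ⟨this.2, ?_⟩
          have h3 := this.1
          simp only [att]
          by_cases hr : r (T.lvl u) = true
          · rw [if_pos hr] at h3 ⊢; exact h3
          · rw [if_neg hr] at h3 ⊢; exact h3
        · rw [Finset.not_nonempty_iff_eq_empty] at hne
          exact ⟨fun _ => 0, by simp [hne], by simp [hne]⟩
      choose φ hφ1 hφ2 using hfi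
      refine ⟨fun x => match x with
        | .inl h => κ h
        | .inr p => φ p.1 p.2, ?_, ?_⟩
      · rintro (h | ⟨e, v⟩) hu
        · exact hκ h
        · exact (hφ1 e v (mem_fib.mpr hu)).1
      · rintro (h | ⟨e, v⟩) hu (h' | ⟨e', v'⟩) hv hadj
        · exact absurd hadj id
        · have h1 : h = att e' v' := hadj
          have := (hφ1 e' v' (mem_fib.mpr hv)).2
          rw [h1]
          exact this.symm
        · have h1 : h' = att e v := hadj
          have := (hφ1 e v (mem_fib.mpr hu)).2
          rw [h1]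
          exact this
        · have h1 : e = e' := hadj.1
          subst h1
          exact hφ2 e v (mem_fib.mpr hu) v' (mem_fib.mpr hv) hadj.2
    cases hW with
    | mono _ _ _ b hb h =>
      refine main (fun _ => b) (fun _ => hb) ?_
      intro e _
      simpa using h
    | pair _ _ _ T' hT hq h =>
      -- colour the hubs properly for the visited virtual edges
      have hfin := Fintype.ofFinite X.E
      set E' : Finset X.E := Finset.univ.filter (fun e => (fib U e).Nonempty) with hE'
      obtain ⟨κ, hκ⟩ := X.col E' (by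
        intro W
        have := visited_card hatt hU (E'.filter (fun e => X.src e ∈ W ∧ X.dst e ∈ W)) W (by
          intro e he
          rw [Finset.mem_filter] at he
          exact ⟨(Finset.mem_filter.mp he.1).2, he.2⟩)
        omega)
      obtain ⟨T'', hT'', hcard⟩ := Finset.exists_subset_card_eq hq
      let ι : Fin q ≃ T'' := (Finset.equivFinOfCardEq hcard).symm
      refine main (fun h => (ι (κ h)).1) (fun h => hT (hT'' (ι (κ h)).2)) ?_
      intro e he
      have hne : (ι (κ (X.src e))).1 ≠ (ι (κ (X.dst e))).1 := by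
        intro heq
        have := ι.injective (Subtype.ext heq)
        exact hκ e (Finset.mem_filter.mpr ⟨Finset.mem_univ _, he⟩) this
      exact h _ (hT'' (ι (κ (X.src e))).2) _ (hT'' (ι (κ (X.dst e))).2) hne

theorem tower_exists {q S : ℕ} (hVG : ∀ j, Nonempty (VG j S q)) (ρ : List (ℕ → Bool)) :
    Nonempty (Tower q S ρ) := by
  induction ρ with
  | nil => exact tower_nil q S
  | cons r ρ ih => exact tower_cons hVG r ih

end Run7.h925
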